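import Pool.Agent.Helper21K9.UV.Phi

/-!
The degree inequality for curves.
-/

set_option autoImplicit false

open MvPolynomial FF Pool.Agent.W603.LV Pool.Agent.W603.PV Pool.Agent.TH145.GH
open Pool.Agent.TH145.GC (Ev dF_sub dF_self ord_prod exists_minor ge_det Cf finite_cf Tan)
open Pool.Agent.TH145.GD (Ti tv St sM sM_mem mon_step sM_zero sM_top single_mem deg_St finite_St)
open Pool.Agent.TH145.GE Pool.Agent.W602.GT Pool.Agent.TH145.MG

namespace Pool.Agent.Helper21K9.UV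

section ineq

variable {k K : Type} [Field k] [Field K] [Algebra k K] [IsAlgClosed k] [CharZero k] [IsFF k K]
  {n : ℕ} {A : Type} {c0 : Fin (n + 1)} {dg eg : A → ℕ}
  {D : A → (Fin (n + 1) →₀ ℕ) → Derivation ℤ K K} {P G : A → MvPolynomial (Fin (n + 1)) K}
  {δ : Derivation k K K}

theorem curve_ineqX [Fintype A] {C : Type} [Fintype C] (s : A → C) (dd dl : C → ℕ)
    (hP : ∀ a, (P a).IsHomogeneous (dg a)) (hG : ∀ a, (G a).IsHomogeneous (eg a))
    (hdd : ∀ a, dg a + eg a = dd (s a)) (hdl : ∀ a, dl (s a) ≤ dg a)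
    (hD : open scoped Classical in ∀ (x : Fin (n + 1) → K) (a b : A) (I : Fin (n + 1) →₀ ℕ),
      I ∈ St c0 (dg a) →
      dF (P b) x (Ev D x a I) = D a I (eval x (P b)) - if a = b then mon x I else 0)
    (hDG : ∀ a I b u, D a I ((G b).coeff u) = 0)
    (hS : ∀ a I, Sem k (D a I)) (hδ : δ ≠ 0) (hδP : ∀ a u, δ ((P a).coeff u) = 0)
    (hδG : ∀ a u, δ ((G a).coeff u) = 0)
    {m : ℕ} {x : Fin (n + 1) → K} (hx1 : x c0 = 1) {l1 : Fin (n + 1)}
    (hl1 : δ (x l1) ≠ 0) (hrk : Module.finrank K (Full c0 dg D (vert δ) x) ≤ m + 1)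
    (hx : ∀ c, fv s P G c x = 0) (hn : ∀ c, ∃ a, s a = c ∧ eval x (G a) ≠ 0) :
    (((∑ c, (dl c + 1) : ℕ) : ℤ) - 2 * m) * pht k x ≤ canDeg k K := by
  classical
  have hx0 : x c0 ≠ 0 := by rw [hx1]; exact one_ne_zero
  have hx00 : x ≠ 0 := by
    rintro rfl
    exact hx0 rfl
  have hind : LinearIndepOn K (vv c0 dg D (vert δ) x fun a => Finsupp.single c0 (dg a))
      (Vert Unit n A) := by
    have h1 : Vert Unit n A = {Sum.inl none, Sum.inl (some (Sum.inl ()))} := by
      ext i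
      constructor
      · rintro (rfl | ⟨⟨⟩, rfl⟩)
        · exact Or.inl rfl
        · exact Or.inr rfl
      · rintro (rfl | rfl)
        · exact Or.inl rfl
        · exact Or.inr ⟨(), rfl⟩
    rw [h1, LinearIndepOn.pair_iff _ (by simp)]
    intro r t hrs
    have h2 := congrFun hrs c0
    have h3 := congrFun hrs l1
    simp only [vv, wv, ev, Pi.add_apply, Pi.smul_apply, smul_eq_mul, Pi.zero_apply] at h2 h3
    have h4 : vert δ () (x c0) = 0 := by
      rw [hx1]
      exact δ.map_one_eq_zero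
    rw [h4, hx1, mul_one, mul_zero, add_zero] at h2
    rw [h2, zero_mul, zero_add] at h3
    exact ⟨h2, (mul_eq_zero.1 h3).resolve_right hl1⟩
  obtain ⟨b, hbV, hbC, hbi, hspan, hcard⟩ := exists_rowsX (E := vert δ) s dd hP hG hdd hD hDG
    (fun _ b u => hδP b u) (fun _ b u => hδG b u) hx0 hx hn hind
  obtain ⟨σ, hσ⟩ := exists_minor _ hbi
  have hdet : (mx c0 dg D (vert δ) x (fun a => Finsupp.single c0 (dg a)) b σ).det ≠ 0 := by
    unfold mx
    convert hσ
  have hc1 := count_rows hbV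
  have hc2 := count_forms (dg := dg) s dl hdl hbC
  have hpht : 0 ≤ pht k x :=
    (hgt_nonneg _).trans (Pool.Agent.W603.CX.hgt_le_pht (k := k) x hx0 hx0)
  obtain ⟨α, hα⟩ : ∃ α : ℤ, α = (∑ a ∈ rowF b, dg a : ℕ) -
    (∑ i ∈ b, rd i : ℕ) := ⟨_, rfl⟩
  have h1 := sum_local' (k := k) hx00
    (Θ := (mx c0 dg D (vert δ) x (fun a => Finsupp.single c0 (dg a)) b σ).det /
        ∏ a ∈ rowF b, x c0 ^ dg a) (a := α)
    (C := fun P => -vo P δ) ?_ (fun P => ?_)
  · have h2 : ∑ᶠ P : Place k K, (-vo P δ) = canDeg k K := by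
      rw [canDeg_eq hδ, finsum_neg_distrib]
    rw [h2] at h1
    refine le_trans (mul_le_mul_of_nonneg_right ?_ hpht) h1
    have h4 : (b.card : ℤ) ≤ m + 1 := by
      rw [hcard] at hrk
      exact_mod_cast hrk
    rw [Fintype.card_unit] at hc1
    have h5 : ((∑ c, (dl c + 1) : ℕ) : ℤ) ≤ (∑ a ∈ rowF b, dg a : ℕ) +
      ((rowF b).card : ℕ) := by exact_mod_cast hc2
    have h6 : ((∑ i ∈ b, rd i : ℕ) : ℤ) +
      ((rowF b).card : ℕ) + 1 + 1 ≤ 2 * b.card := by
      exact_mod_cast hc1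
    rw [hα]
    linarith
  · refine (vo_finite hδ).subset fun P hP => ?_
    intro h0
    apply hP
    change -vo P δ = 0
    rw [h0, neg_zero]
  · have h2 := local_gen P hx0 (hbV _ (Or.inl rfl)) σ hspan hdet (vo P δ)
      (fun x' e1 hx' he1 hd => ord_det_curve' hS hδ P hx' e1 hbV σ hd)
    refine le_trans ?_ h2
    rw [hα]
    have h4 : -(((∑ a ∈ rowF b, dg a : ℕ) : ℤ) - (∑ i ∈ b, rd i : ℕ)) *
        pord P x = ((∑ i ∈ b, rd i : ℕ) - (∑ a ∈ rowF b, dg a : ℕ)) *
        pord P x := by ring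
    rw [h4]
    linarith

end ineq

open scoped Classical in
/-- The derivations that are dual to independent coefficients. -/
theorem exists_dualX {k0 k L : Type} [Field k0] [Field k] [Field L] [Algebra k0 k] [Algebra k L]
    [Algebra k0 L] [IsScalarTower k0 k L] [IsAlgClosed k] [CharZero k] [IsFF k L] {n : ℕ} {A : Type}
    [Finite A] {dg : A → ℕ} {P : A → MvPolynomial (Fin (n + 1)) k}
    (hP : ∀ a, (P a).IsHomogeneous (dg a))
    (hind : AlgebraicIndependent k0 fun p : Cf n dg => (P p.1).coeff p.2.1) :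
    ∃ D : A → (Fin (n + 1) →₀ ℕ) → Derivation ℤ L L,
      (∀ (x : Fin (n + 1) → L) (a b : A) (I : Fin (n + 1) →₀ ℕ), I.degree = dg a →
        dF (map (algebraMap k L) (P b)) x (Ev D x a I) =
          D a I (eval x (map (algebraMap k L) (P b))) - if a = b then mon x I else 0) ∧
      (∀ a I, Sem k (D a I)) ∧ ∀ a I (r : k0), D a I (algebraMap k0 L r) = 0 := by
  obtain ⟨D', hDS, hDD⟩ := exists_duals (L := L) _ hind
  obtain ⟨D, hD⟩ : ∃ D : A → (Fin (n + 1) →₀ ℕ) → Derivation ℤ L L, ∀ a I, D a I =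
      if h : I.degree = dg a then (D' ⟨a, ⟨I, h⟩⟩).restrictScalars ℤ else 0 := ⟨_, fun _ _ => rfl⟩
  have hdual : Pool.Agent.TH145.GC.Dual (fun a => map (algebraMap k L) (P a)) dg D := by
    intro a b I J hI hJ
    have h1 : D a I ((map (algebraMap k L) (P b)).coeff J) =
        D' ⟨a, ⟨I, hI⟩⟩ (algebraMap k L ((P b).coeff J)) := by
      rw [hD, dif_pos hI, coeff_map]
      rfl
    have h2 := hDD ⟨a, ⟨I, hI⟩⟩ ⟨b, ⟨J, hJ⟩⟩
    dsimp only at h2
    rw [h1, h2]
    constructor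
    · intro hab hIJ
      subst hab
      subst hIJ
      rw [if_pos rfl]
    · intro h
      rw [if_neg]
      intro h'
      have h5 : a = b := congrArg Sigma.fst h'
      subst h5
      rcases h with h | h
      · exact h rfl
      · apply h
        have h6 := eq_of_heq (Sigma.mk.inj_iff.1 h').2
        exact congrArg Subtype.val h6
  refine ⟨D, fun x a b I hI => ?_, fun a I => ?_, fun a I r => ?_⟩
  · exact Pool.Agent.TH145.GC.dF_Ev (fun a => (hP a).map _) hdual x hI
  · rw [hD]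
    split_ifs
    · exact hDS _
    · exact fun r => ⟨0, by rw [map_zero]; rfl⟩
  · rw [hD]
    split_ifs with h2
    · exact (D' ⟨a, ⟨I, h2⟩⟩).map_algebraMap r
    · rfl

theorem curve_genericX {k0 K L : Type} [Field k0] [Field K] [Field L] [Algebra k0 K] [Algebra K L]
    [IsAlgClosed K] [CharZero K] [IsFF K L] {n m : ℕ} {A C : Type} [Fintype A] [Fintype C]
    {dg eg : A → ℕ} (V : Set (MvPolynomial (Fin (n + 1)) k0))
    (hVh : ∀ f ∈ V, ∃ e, f.IsHomogeneous e) (hV : DimLE k0 V m)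
    (G : A → MvPolynomial (Fin (n + 1)) k0) (hG : ∀ a, (G a).IsHomogeneous (eg a))
    (s : A → C) (dd dl : C → ℕ) (hdd : ∀ a, dg a + eg a = dd (s a)) (hdl : ∀ a, dl (s a) ≤ dg a)
    (P : A → MvPolynomial (Fin (n + 1)) K) (hP : ∀ a, (P a).IsHomogeneous (dg a))
    (hgen' : AlgebraicIndependent k0 fun p : Cf n dg => (P p.1).coeff p.2.1)
    (x : Fin (n + 1) → L) (hx : ∃ i j, x j ≠ 0 ∧ x i / x j ∉ Set.range (algebraMap K L))
    (hxV : ∀ f ∈ V, aeval x (map (algebraMap k0 K) f) = 0)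
    (hxC : ∀ c, fv s (fun a => map (algebraMap K L) (P a)) (fun a => map (algebraMap K L)
      (map (algebraMap k0 K) (G a))) c x = 0)
    (hxn : ∀ c, ∃ a, s a = c ∧ aeval x (map (algebraMap k0 K) (G a)) ≠ 0) :
    (((∑ c, (dl c + 1) : ℕ) : ℤ) - 2 * m) * pht K x ≤ canDeg K L := by
  classical
  let _ : Algebra k0 L := ((algebraMap K L).comp (algebraMap k0 K)).toAlgebra
  have hst : IsScalarTower k0 K L := IsScalarTower.of_algebraMap_eq fun _ => rfl
  have hL : CharZero L := charZero_of_injective_algebraMap (algebraMap K L).injective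
  obtain ⟨i1, c0, hc0, hi1⟩ := hx
  obtain ⟨D, hD, hDS, hDk⟩ := exists_dualX (L := L) hP hgen'
  obtain ⟨δ, hδ⟩ : ∃ δ : Derivation K L L, δ ≠ 0 := ⟨der K L, der_ne⟩
  obtain ⟨x', hx'⟩ : ∃ x' : Fin (n + 1) → L, x' = fun j => (x c0)⁻¹ * x j := ⟨_, rfl⟩
  have hcx : (x c0)⁻¹ ≠ 0 := inv_ne_zero hc0
  have hx1 : x' c0 = 1 := by
    rw [hx']
    exact inv_mul_cancel₀ hc0
  have hl1 : ∃ l1, δ (x' l1) ≠ 0 := by
    refine ⟨i1, fun h => hi1 ?_⟩
    obtain ⟨c, hc⟩ := const_of_der hδ h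
    refine ⟨c, ?_⟩
    rw [← hc, hx', div_eq_mul_inv, mul_comm]
  obtain ⟨l1, hl1⟩ := hl1
  have hxx : x' = (x c0)⁻¹ • x := by rw [hx']; rfl
  have hx00 : x' ≠ 0 := by
    rintro h
    rw [h] at hx1
    exact zero_ne_one hx1
  obtain ⟨P', hP'⟩ : ∃ P' : A → MvPolynomial (Fin (n + 1)) L, P' = fun a =>
    map (algebraMap K L) (P a) := ⟨_, rfl⟩
  obtain ⟨G', hG'⟩ : ∃ G' : A → MvPolynomial (Fin (n + 1)) L, G' = fun a => map (algebraMap K L)
      (map (algebraMap k0 K) (G a)) := ⟨_, rfl⟩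
  rw [← hP', ← hG'] at hxC
  have hPh : ∀ a, (P' a).IsHomogeneous (dg a) := fun a => by
    rw [hP']
    exact (hP a).map _
  have hGh : ∀ a, (G' a).IsHomogeneous (eg a) := fun a => by
    rw [hG']
    exact ((hG a).map _).map _
  have hGc : ∀ a u, (G' a).coeff u = algebraMap k0 L ((G a).coeff u) :=
    fun a u => by
      rw [hG']
      dsimp only
      rw [coeff_map, coeff_map]
      rfl
  have hGe : ∀ a (z : Fin (n + 1) → L), eval z (G' a) =
      aeval z (map (algebraMap k0 K) (G a)) := fun a z => by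
    rw [hG']
    dsimp only
    rw [eval_map]
    rfl
  have hfv : ∀ c, fv s P' G' c x' = (x c0)⁻¹ ^ dd c * fv s P' G' c x := by
    intro c
    unfold fv
    rw [Finset.mul_sum]
    refine Finset.sum_congr rfl fun a _ => ?_
    by_cases h : s a = c
    · simp only [h, if_true]
      rw [hxx, eval_smul_hom (hPh a), eval_smul_hom (hGh a), ← h, ← hdd a, pow_add]
      ring
    · simp only [h, if_false, mul_zero]
  have hVx : ∀ f ∈ V, aeval x' f = 0 := by
    intro f hf
    have h3 : aeval x f = 0 := by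
      have h4 := hxV f hf
      rw [aeval_map_algebraMap] at h4
      exact h4
    obtain ⟨e, he⟩ := hVh f hf
    rw [hxx, Pool.Agent.TH145.MG.aeval_smul he, h3, mul_zero]
  have hrk : Module.finrank L (Full c0 dg D (vert δ) x') ≤ m + 1 := by
    refine le_trans (Submodule.finrank_mono (full_le_tan (k0 := k0) hDk ?_ x'))
      (tan_rank hx1 (hV L x' hx00 hVx))
    intro _ r
    change δ (algebraMap k0 L r) = 0
    rw [IsScalarTower.algebraMap_apply k0 K L]
    exact δ.map_algebraMap _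
  have key := curve_ineqX (P := P') (G := G') s dd dl hPh hGh hdd hdl (fun x a b I hI => by
      rw [hP']
      exact hD x a b I (deg_St hI))
    (fun a I b u => by rw [hGc]; exact hDk _ _ _) hDS hδ
    (fun a u => by
      rw [hP']
      dsimp only
      rw [coeff_map]
      exact δ.map_algebraMap _)
    (fun a u => by
      rw [hGc, IsScalarTower.algebraMap_apply k0 K L]
      exact δ.map_algebraMap _)
    hx1 hl1 hrk (fun c => by rw [hfv, hxC, mul_zero])
    (fun c => by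
      obtain ⟨a, ha, hne⟩ := hxn c
      refine ⟨a, ha, ?_⟩
      rw [hxx, eval_smul_hom (hGh a), hGe]
      exact mul_ne_zero (pow_ne_zero _ hcx) hne)
  have hp : pht K x' = pht K x := by
    rw [hx']
    exact pht_scale ⟨c0, hc0⟩ hcx
  rw [hp] at key
  exact key

theorem curve : S_CURVE := by
  intro k K _ _ _ _ _ n m V hVh hV A C _ _ dg eg G hG s dd dl hdd hdl P hP hgen L _ _ _ x hx hxV
    hxC hxn
  exact curve_genericX V hVh hV G hG s dd dl hdd hdl P hP hgen.algebraicClosure x hx hxV hxC hxn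

end Pool.Agent.Helper21K9.UV
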