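import Pool.Agent.TH145.GH.Limit
import Pool.Agent.W603.CX.Basic
import Pool.Agent.W603.PV.Main

/-!
Closed subsets of projective space: maps from curves and points over finitely generated rings and
fields; comparison of a closed set with smaller ones.
-/

set_option autoImplicit false

open MvPolynomial FF Pool.Agent.W603.LV Pool.Agent.W603.PV LinearAlgebra.Projectivization

namespace Pool.Agent.Helper21K9.UV

section defs

variable {K : Type} [Field K] {n : ℕ}

/-- The vector `f` is the vector of homogeneous coordinates of a morphism from the smooth projective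
curve with function field `L` to the closed subset of projective space given by the forms in `S`. -/
def IsMap (S : Set (MvPolynomial (Fin (n + 1)) K)) {L : Type} [Field L] [Algebra K L]
    (f : Fin (n + 1) → L) : Prop :=
  f ≠ 0 ∧ ∀ F ∈ S, aeval f F = 0

/-- The degrees of the morphisms from curves of genus `g` are at most `B max (2 g - 2, 0)`. -/
def AlgHyp (S : Set (MvPolynomial (Fin (n + 1)) K)) : Prop :=
  ∃ B : ℕ, ∀ (L : Type) [Field L] [Algebra K L] [IsFF K L] (f : Fin (n + 1) → L),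
    IsMap S f → pht K f ≤ B * max (canDeg K L) 0

/-- The degrees of the morphisms from each curve are bounded. -/
def Bounded (S : Set (MvPolynomial (Fin (n + 1)) K)) : Prop :=
  ∀ (L : Type) [Field L] [Algebra K L] [IsFF K L], ∃ B : ℤ, ∀ f : Fin (n + 1) → L,
    IsMap S f → pht K f ≤ B

/-- The morphisms from the curves of genus at most one are constant. -/
def GenusOne (S : Set (MvPolynomial (Fin (n + 1)) K)) : Prop :=
  ∀ (L : Type) [Field L] [Algebra K L] [IsFF K L], canDeg K L ≤ 0 → ∀ f : Fin (n + 1) → L,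
    IsMap S f → ∃ (c : L) (x : Fin (n + 1) → K), ∀ i, f i = c * algebraMap K L (x i)

/-- The points with coordinates in the field `E`. -/
def FieldPts (S : Set (MvPolynomial (Fin (n + 1)) K)) (E : Subfield K) :
    Set (ℙ K (Fin (n + 1) → K)) :=
  {p | ∃ (x : Fin (n + 1) → K) (hx : x ≠ 0), p = Projectivization.mk K x hx ∧
    (∀ F ∈ S, eval x F = 0) ∧ ∀ i, x i ∈ E}

/-- The points with homogeneous coordinates in the ring generated by the set `T` which generate the
unit ideal of this ring. -/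
def RingPts (S : Set (MvPolynomial (Fin (n + 1)) K)) (T : Finset K) :
    Set (ℙ K (Fin (n + 1) → K)) :=
  {p | ∃ (x : Fin (n + 1) → K) (hx : x ≠ 0), p = Projectivization.mk K x hx ∧
    (∀ F ∈ S, eval x F = 0) ∧ (∀ i, x i ∈ Subring.closure (T : Set K)) ∧
    ∃ c : Fin (n + 1) → K, (∀ i, c i ∈ Subring.closure (T : Set K)) ∧ ∑ i, c i * x i = 1}

end defs

section

variable {K : Type} [Field K] {n : ℕ} {S : Set (MvPolynomial (Fin (n + 1)) K)} {C : Type}
  {E : C → Set (MvPolynomial (Fin (n + 1)) K)}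

theorem IsMap.mono {S S' : Set (MvPolynomial (Fin (n + 1)) K)} (h : S ⊆ S') {L : Type} [Field L]
    [Algebra K L] {f : Fin (n + 1) → L} (hf : IsMap S' f) : IsMap S f :=
  ⟨hf.1, fun F hF => hf.2 F (h hF)⟩

variable [IsAlgClosed K] [CharZero K]

/-- A vector with constant ratios. -/
theorem const_or {L : Type} [Field L] [Algebra K L] {f : Fin (n + 1) → L} (hf : f ≠ 0) :
    (∃ (c : L) (x : Fin (n + 1) → K), ∀ i, f i = c * algebraMap K L (x i)) ∨
      ∃ i j, f j ≠ 0 ∧ f i / f j ∉ Set.range (algebraMap K L) := by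
  by_cases h : ∃ i j, f j ≠ 0 ∧ f i / f j ∉ Set.range (algebraMap K L)
  · exact Or.inr h
  · left
    push Not at h
    obtain ⟨j, hj⟩ := Function.ne_iff.1 hf
    have hj' : f j ≠ 0 := hj
    choose x hx using fun i => h i j hj'
    refine ⟨f j, x, fun i => ?_⟩
    rw [hx, mul_div_cancel₀ _ hj']

theorem pht_const {L : Type} [Field L] [Algebra K L] [IsFF K L] {f : Fin (n + 1) → L} (hf : f ≠ 0)
    {c : L} {x : Fin (n + 1) → K} (h : ∀ i, f i = c * algebraMap K L (x i)) : pht K f = 0 := by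
  have hc : c ≠ 0 := by
    rintro rfl
    apply hf
    funext i
    rw [h, zero_mul]
    rfl
  obtain ⟨j, hj⟩ := Function.ne_iff.1 hf
  have hj' : f j ≠ 0 := hj
  have hxj : x j ≠ 0 := by
    intro h0
    rw [h, h0, map_zero, mul_zero] at hj'
    exact hj' rfl
  have h1 : f = fun i => c * algebraMap K L (x i) := funext h
  have hne : algebraMap K L (x j) ≠ 0 := by
    rw [Ne, map_eq_zero]
    exact hxj
  rw [h1, pht_scale (f := fun i => algebraMap K L (x i)) ⟨j, hne⟩ hc]
  unfold pht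
  have h2 : ∀ P : Place K L, pord P (fun i => algebraMap K L (x i)) = 0 := by
    intro P
    obtain ⟨l, hl, hlP⟩ := exists_pord P (f := fun i => algebraMap K L (x i)) ⟨j, hne⟩
    rw [← hlP]
    exact P.ord_const (fun h0 => hl (by
      change algebraMap K L (x l) = 0
      rw [h0, map_zero]))
  simp only [h2, finsum_zero, neg_zero]

theorem pht_nonneg {L : Type} [Field L] [Algebra K L] [IsFF K L] {f : Fin (n + 1) → L}
    (hf : f ≠ 0) : 0 ≤ pht K f := by
  obtain ⟨j, hj⟩ := Function.ne_iff.1 hf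
  exact (hgt_nonneg _).trans (Pool.Agent.W603.CX.hgt_le_pht (k := K) f hj hj)

theorem not_const {L : Type} [Field L] [Algebra K L] [IsFF K L] {f : Fin (n + 1) → L}
    (h : pht K f ≤ 0) {i j : Fin (n + 1)} (hj : f j ≠ 0) : f i / f j ∈ Set.range (algebraMap K L) := by
  have h1 : pht K (fun l => (f j)⁻¹ * f l) ≤ 0 := by
    rw [pht_scale ⟨j, hj⟩ (inv_ne_zero hj)]
    exact h
  obtain ⟨c, hc⟩ := Pool.Agent.TH145.GH.const_of_pht h1 (l0 := j) (inv_mul_cancel₀ hj) i
  refine ⟨c, ?_⟩
  rw [← hc, div_eq_mul_inv, mul_comm]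

variable [Finite C] (hE : ∀ c, S ⊆ E c)
    (hcurve : ∀ (L : Type) [Field L] [Algebra K L] [IsFF K L] (f : Fin (n + 1) → L),
      (∃ i j, f j ≠ 0 ∧ f i / f j ∉ Set.range (algebraMap K L)) → IsMap S f →
      (∀ c, ¬ IsMap (E c) f) → pht K f ≤ canDeg K L)

include hE hcurve

theorem algHyp_iff : AlgHyp S ↔ ∀ c, AlgHyp (E c) := by
  constructor
  · rintro ⟨B, hB⟩ c
    exact ⟨B, fun L _ _ _ f hf => hB L f (hf.mono (hE c))⟩
  · intro h
    choose B hB using h
    obtain ⟨B0, hB0⟩ : ∃ B0 : ℕ, ∀ c, B c ≤ B0 := by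
      obtain ⟨B0, hB0⟩ := (Set.finite_range B).bddAbove
      exact ⟨B0, fun c => hB0 ⟨c, rfl⟩⟩
    refine ⟨B0 + 1, fun L _ _ _ f hf => ?_⟩
    have h0 : (0 : ℤ) ≤ max (canDeg K L) 0 := le_max_right _ _
    rcases const_or (K := K) hf.1 with ⟨c, x, hx⟩ | hnc
    · rw [pht_const hf.1 hx]
      positivity
    · by_cases hc : ∀ c, ¬ IsMap (E c) f
      · have h1 := hcurve L f hnc hf hc
        have h2 : canDeg K L ≤ max (canDeg K L) 0 := le_max_left _ _
        have h3 : (0 : ℤ) ≤ (B0 : ℤ) * max (canDeg K L) 0 := by positivity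
        push_cast
        linarith
      · push Not at hc
        obtain ⟨c, hc⟩ := hc
        have h1 := hB c L f hc
        have h2 : (B c : ℤ) * max (canDeg K L) 0 ≤ ((B0 + 1 : ℕ) : ℤ) * max (canDeg K L) 0 := by
          refine mul_le_mul_of_nonneg_right ?_ h0
          have := hB0 c
          omega
        exact h1.trans h2

theorem bounded_iff : Bounded S ↔ ∀ c, Bounded (E c) := by
  constructor
  · intro h c L _ _ _
    obtain ⟨B, hB⟩ := h L
    exact ⟨B, fun f hf => hB f (hf.mono (hE c))⟩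
  · intro h L _ _ _
    choose B hB using fun c => h c L
    obtain ⟨B0, hB0⟩ : ∃ B0 : ℤ, ∀ c, B c ≤ B0 := by
      obtain ⟨B0, hB0⟩ := (Set.finite_range B).bddAbove
      exact ⟨B0, fun c => hB0 ⟨c, rfl⟩⟩
    refine ⟨max B0 (max (canDeg K L) 0), fun f hf => ?_⟩
    rcases const_or (K := K) hf.1 with ⟨c, x, hx⟩ | hnc
    · rw [pht_const hf.1 hx]
      exact (le_max_right _ _).trans (le_max_right _ _)
    · by_cases hc : ∀ c, ¬ IsMap (E c) f
      · exact (hcurve L f hnc hf hc).trans ((le_max_left _ _).trans (le_max_right _ _))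
      · push Not at hc
        obtain ⟨c, hc⟩ := hc
        exact (hB c f hc).trans ((hB0 c).trans (le_max_left _ _))

theorem genusOne_iff : GenusOne S ↔ ∀ c, GenusOne (E c) := by
  constructor
  · intro h c L _ _ _ hL f hf
    exact h L hL f (hf.mono (hE c))
  · intro h L _ _ _ hL f hf
    rcases const_or (K := K) hf.1 with h1 | hnc
    · exact h1
    · by_cases hc : ∀ c, ¬ IsMap (E c) f
      · have h1 := (hcurve L f hnc hf hc).trans hL
        obtain ⟨i, j, hj, hij⟩ := hnc
        exact absurd (not_const h1 hj) hij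
      · push Not at hc
        obtain ⟨c, hc⟩ := hc
        exact h c L hL f hc

end

section pts

variable {K : Type} [Field K] {n : ℕ} {S : Set (MvPolynomial (Fin (n + 1)) K)} {C : Type}
  {E : C → Set (MvPolynomial (Fin (n + 1)) K)}

theorem fieldPts_iff [Finite C] (hE : ∀ c, S ⊆ E c) {τ : Type} (U : τ → Subfield K)
    (hpts : ∀ T, {p : ℙ K (Fin (n + 1) → K) | ∃ (x : Fin (n + 1) → K) (hx : x ≠ 0),
      p = Projectivization.mk K x hx ∧ (∀ F ∈ S, eval x F = 0) ∧
      (∀ c, ¬ ∀ F ∈ E c, eval x F = 0) ∧ ∀ i, x i ∈ U T}.Finite) :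
    (∀ T, (FieldPts S (U T)).Finite) ↔ ∀ c T, (FieldPts (E c) (U T)).Finite := by
  constructor
  · intro h c T
    refine (h T).subset ?_
    rintro p ⟨x, hx, hp, hF, hU⟩
    exact ⟨x, hx, hp, fun F hFS => hF F (hE c hFS), hU⟩
  · intro h T
    refine ((hpts T).union (Set.finite_iUnion fun c => h c T)).subset ?_
    rintro p ⟨x, hx, hp, hF, hU⟩
    by_cases hc : ∀ c, ¬ ∀ F ∈ E c, eval x F = 0
    · exact Or.inl ⟨x, hx, hp, hF, hc, hU⟩
    · push Not at hc
      obtain ⟨c, hc⟩ := hc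
      exact Or.inr (Set.mem_iUnion.2 ⟨c, x, hx, hp, hc, hU⟩)

theorem ringPts_iff [Finite C] (hE : ∀ c, S ⊆ E c) (U : Finset K → Subfield K)
    (hU : ∀ T : Finset K, (Subring.closure (T : Set K) : Set K) ⊆ U T)
    (hpts : ∀ T, {p : ℙ K (Fin (n + 1) → K) | ∃ (x : Fin (n + 1) → K) (hx : x ≠ 0),
      p = Projectivization.mk K x hx ∧ (∀ F ∈ S, eval x F = 0) ∧
      (∀ c, ¬ ∀ F ∈ E c, eval x F = 0) ∧ ∀ i, x i ∈ U T}.Finite) :
    (∀ T, (RingPts S T).Finite) ↔ ∀ c T, (RingPts (E c) T).Finite := by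
  constructor
  · intro h c T
    refine (h T).subset ?_
    rintro p ⟨x, hx, hp, hF, hU⟩
    exact ⟨x, hx, hp, fun F hFS => hF F (hE c hFS), hU⟩
  · intro h T
    refine ((hpts T).union (Set.finite_iUnion fun c => h c T)).subset ?_
    rintro p ⟨x, hx, hp, hF, hxT, hc⟩
    by_cases hc' : ∀ c, ¬ ∀ F ∈ E c, eval x F = 0
    · exact Or.inl ⟨x, hx, hp, hF, hc', fun i => hU T (hxT i)⟩
    · push Not at hc'
      obtain ⟨c, hc'⟩ := hc'
      exact Or.inr (Set.mem_iUnion.2 ⟨c, x, hx, hp, hc', hxT, hc⟩)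

end pts

end Pool.Agent.Helper21K9.UV
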