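import Pool.Agent.TH145.GC.Main
import Pool.Agent.TH145.GE.CurveMain

/-!
# Generic hypersurfaces that contain a given closed set: the statements

MP_c7af3c_ag (Lang: groupless iff arithmetically hyperbolic), universality of hypersurfaces.

`G a` are forms over `k0`, `P a` generic forms, `dg a + eg a = dd (s a)`; the equations are
`F_c = ∑_{s a = c} P a * G a = 0`. We look at the points `x` of `F_c = 0` (all `c`) such that for every
`c` some `G a` with `s a = c` does not vanish at `x`.

The proofs are adaptations of `Pool.Agent.TH145.GC` (points) and `Pool.Agent.TH145.GE` (curves), where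
the equations are `F a = 0` with generic `F a`. THE ONLY NEW IDEA: in the old proof the rows
`Ev D x a (single e0 (dg a))`, `a ∈ C`, are linearly independent modulo the tangent vectors
(`wv dg D x`) because `dF (F a) x` kills the tangent vectors and not these rows. Now the functionals
are `Φ_c z = ∑_{s a = c} (G a (x) * dF (P a) x z + P a (x) * dF (G a) x z)` (the differential of `F_c`
at `x`), and
`Φ_c (Ev D x b I) = D b I (F_c (x)) - (if s b = c then mon x I * G b (x) else 0)`
(use `GC.dF_Ev` for the `P a` and the chain rule `chainM` for the `G a`, whose coefficients are killed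
by all the derivations; Leibniz), `Φ_c x = dd c * F_c (x) = 0` (`dF_self`), so `Φ_c` kills all the
`wv dg D x o`, and for `a_c` with `s a_c = c`, `G (a_c) (x) ≠ 0` the rows `Ev D x (a_c) (single e0 _)`
are linearly independent modulo the tangent vectors. The basis `b` contains the `Sum.inr (a_c)`; the
rows of the other `a` may or may not be in `b`. There is no division by `eval x (F a)` any more:
`Θ = det / ∏_{a : Sum.inr a ∈ b} x e0 ^ dg a`, and its order at a place is at least
`((∑ i ∈ b, rd i) - (∑ a with Sum.inr a ∈ b, dg a)) * pord P x - (n + 1) * e P` by `det_change`,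
`det_lam` and `ge_det` (all entries of the matrix at the scaled point have order `≥ - e P`, and
`b.card ≤ n + 1`). Finally `∑ i ∈ b, rd i = 2 * b.card - 1 - q`, where `q` is the number of the `a`
with `Sum.inr a ∈ b`, and `∑ (dg a + 1) ≥ ∑_c (δ c + 1) ≥ 2 m + 2`, `b.card ≤ m + 1`.
-/

set_option autoImplicit false

open MvPolynomial FF Pool.Agent.W603.LV Pool.Agent.W603.PV Pool.Agent.TH145.GH
open Pool.Agent.W602.RG LinearAlgebra.Projectivization
open Pool.Agent.TH145.GC (Data Gen Cf)

namespace Pool.Agent.Helper21K9.UV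

open scoped Classical in
/-- The value of the form `F_c = ∑_{s a = c} P a * G a` at `x`. -/
noncomputable def fv {K : Type} [Field K] {n : ℕ} {A C : Type} [Fintype A] (s : A → C)
    (P G : A → MvPolynomial (Fin (n + 1)) K) (c : C) (x : Fin (n + 1) → K) : K :=
  ∑ a, if s a = c then eval x (P a) * eval x (G a) else 0

/-- [INEQ] (adaptation of `GC.exists_rows`, `GC.Data.local_est`, `GC.Data.ineq`; the hypothesis `hP`
of `Data.ineq` disappears). -/
def S_INEQ : Prop :=
  ∀ {k K : Type} [Field k] [Field K] [Algebra k K] [IsAlgClosed k] [CharZero k] [IsFF k K]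
    {n : ℕ} {A C : Type} [Fintype A] [Fintype C] {P G : A → MvPolynomial (Fin (n + 1)) K}
    {dg eg : A → ℕ} {D : A → (Fin (n + 1) →₀ ℕ) → Derivation ℤ K K} {e : Place k K → ℤ}
    (_ : Data k P dg D e) (_ : ∀ a, (G a).IsHomogeneous (eg a))
    (_ : ∀ a I b u, D a I ((G b).coeff u) = 0) (s : A → C) (dd δ : C → ℕ)
    (_ : ∀ a, dg a + eg a = dd (s a)) (_ : ∀ a, δ (s a) ≤ dg a)
    (m : ℕ) (_ : 2 * m + 2 ≤ ∑ c, (δ c + 1)) (x : Fin (n + 1) → K) (_ : x ≠ 0)
    (_ : Module.finrank K (Pool.Agent.TH145.GC.Full dg D x) ≤ m + 1)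
    (_ : ∀ c, fv s P G c x = 0) (_ : ∀ c, ∃ a, s a = c ∧ eval x (G a) ≠ 0),
    pht k x ≤ ∑ᶠ Q, (n + 1 + Fintype.card A) * e Q

section

variable {k0 K ι : Type} [Field k0] [Field K] [Algebra k0 K]

/-- [LIM] limit points are constant (adaptation of `GC.limit`, uses S_INEQ with `e = 0` and
`GC.exists_rig_data` unchanged, for `F := P`). The forms `G a` over `k0` are mapped to `Λ` by
`φ.comp ψ` as the forms in `V`; their coefficients are killed by `D'` (`hDk'`). -/
def S_LIM : Prop :=
  ∀ {k0 K : Type} [Field k0] [Field K] [Algebra k0 K] [IsAlgClosed k0] [IsAlgClosed K] [CharZero K]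
    {n m : ℕ} {A C : Type} [Fintype A] [Fintype C] {dg eg : A → ℕ} (E : Subfield K)
    (_ : ∀ r : k0, algebraMap k0 K r ∈ E)
    {P : A → MvPolynomial (Fin (n + 1)) E} {DE : A → (Fin (n + 1) →₀ ℕ) → E → E}
    (_ : Gen P dg DE)
    (D : A → (Fin (n + 1) →₀ ℕ) → Derivation ℤ K K)
    (_ : ∀ a I (x : E), D a I x = (DE a I x : K))
    (_ : ∀ a I (r : k0), D a I (algebraMap k0 K r) = 0)
    (G : A → MvPolynomial (Fin (n + 1)) k0) (_ : ∀ a, (G a).IsHomogeneous (eg a))
    (s : A → C) (dd δ : C → ℕ) (_ : ∀ a, dg a + eg a = dd (s a)) (_ : ∀ a, δ (s a) ≤ dg a)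
    (_ : 2 * m + 2 ≤ ∑ c, (δ c + 1)) (V : Set (MvPolynomial (Fin (n + 1)) k0))
    (_ : Pool.Agent.TH145.MG.DimLE k0 V m)
    (z : Fin (n + 1) → Om K) (_ : ∀ j, z j ∈ OE k0 (E : Set K)) {l0 : Fin (n + 1)}
    (_ : z l0 = 1) (_ : ∀ f ∈ V, eval₂ ((cst K).comp (algebraMap k0 K)) z f = 0)
    (_ : ∀ c, fv s (fun a => map ((cst K).comp E.subtype) (P a))
      (fun a => map ((cst K).comp (algebraMap k0 K)) (G a)) c z = 0)
    (_ : ∀ c, ∃ a, s a = c ∧ eval₂ ((cst K).comp (algebraMap k0 K)) z (G a) ≠ 0)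
    (j : Fin (n + 1)), z j ∈ acl (cst K '' (E : Set K))

/-- [HTS] the heights are bounded (adaptation of `GC.heights`, without the integrality part; uses
`GC.exists_data_L` unchanged for `F := P`, and S_INEQ). -/
def S_HTS : Prop :=
  ∀ {k0 K ι : Type} [Field k0] [Field K] [Algebra k0 K] [IsAlgClosed K] [CharZero K]
    {y : ι → K} (E : IntermediateField (IntermediateField.adjoin k0 (Set.range y)) K)
    {n m : ℕ} {A C : Type} [Fintype A] [Fintype C] {dg eg : A → ℕ}
    (_ : AlgebraicIndependent k0 y)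
    [FiniteDimensional (IntermediateField.adjoin k0 (Set.range y)) E]
    {P : A → MvPolynomial (Fin (n + 1)) E.toSubfield}
    {DE : A → (Fin (n + 1) →₀ ℕ) → E.toSubfield → E.toSubfield}
    (_ : Gen P dg DE)
    (D : A → (Fin (n + 1) →₀ ℕ) → Derivation ℤ K K)
    (_ : ∀ a I (x : E.toSubfield), D a I x = (DE a I x : K))
    (_ : ∀ a I (r : k0), D a I (algebraMap k0 K r) = 0)
    (_ : ∀ a I j, ∃ r : k0, D a I (y j) = algebraMap k0 K r)
    (G : A → MvPolynomial (Fin (n + 1)) k0) (_ : ∀ a, (G a).IsHomogeneous (eg a))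
    (s : A → C) (dd δ : C → ℕ) (_ : ∀ a, dg a + eg a = dd (s a)) (_ : ∀ a, δ (s a) ≤ dg a)
    (_ : 2 * m + 2 ≤ ∑ c, (δ c + 1)) (V : Set (MvPolynomial (Fin (n + 1)) k0))
    (_ : Pool.Agent.TH145.MG.DimLE k0 V m)
    (l0 : Fin (n + 1)) (i : ι),
    ∃ B : ℤ, ∀ x : Fin (n + 1) → E, x l0 = 1 →
      (∀ f ∈ V, eval₂ (algebraMap k0 K) (fun j => (x j : K)) f = 0) →
      (∀ c, fv s (fun a => map E.toSubfield.subtype (P a))
        (fun a => map (algebraMap k0 K) (G a)) c (fun j => (x j : K)) = 0) →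
      (∀ c, ∃ a, s a = c ∧ eval₂ (algebraMap k0 K) (fun j => (x j : K)) (G a) ≠ 0) →
      ∀ j, hgt (kap k0 y i) (⟨(x j : K), subset_LL y _ i (x j).2⟩ :
        LL k0 y (E : Set K) i) ≤ B

/-- [FIN] finiteness (adaptation of `GC.fin_all`; uses S_HTS and S_LIM). -/
def S_FIN : Prop :=
  ∀ {k0 K ι : Type} [Field k0] [Field K] [Algebra k0 K] [IsAlgClosed K] [CharZero K]
    {y : ι → K} (E : IntermediateField (IntermediateField.adjoin k0 (Set.range y)) K)
    {n m : ℕ} {A C : Type} [Fintype A] [Fintype C] {dg eg : A → ℕ} [IsAlgClosed k0] [Finite ι]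
    (_ : IsTranscendenceBasis k0 y)
    [FiniteDimensional (IntermediateField.adjoin k0 (Set.range y)) E]
    [IsGalois (IntermediateField.adjoin k0 (Set.range y)) E]
    {P : A → MvPolynomial (Fin (n + 1)) E.toSubfield}
    {DE : A → (Fin (n + 1) →₀ ℕ) → E.toSubfield → E.toSubfield}
    (_ : Gen P dg DE)
    (D : A → (Fin (n + 1) →₀ ℕ) → Derivation ℤ K K)
    (_ : ∀ a I (x : E.toSubfield), D a I x = (DE a I x : K))
    (_ : ∀ a I (r : k0), D a I (algebraMap k0 K r) = 0)
    (_ : ∀ a I j, ∃ r : k0, D a I (y j) = algebraMap k0 K r)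
    (G : A → MvPolynomial (Fin (n + 1)) k0) (_ : ∀ a, (G a).IsHomogeneous (eg a))
    (s : A → C) (dd δ : C → ℕ) (_ : ∀ a, dg a + eg a = dd (s a)) (_ : ∀ a, δ (s a) ≤ dg a)
    (_ : 2 * m + 2 ≤ ∑ c, (δ c + 1)) (V : Set (MvPolynomial (Fin (n + 1)) k0))
    (_ : Pool.Agent.TH145.MG.DimLE k0 V m)
    (l0 : Fin (n + 1)),
    {x : Fin (n + 1) → K | (∀ j, x j ∈ E) ∧ x l0 = 1 ∧
      (∀ f ∈ V, eval₂ (algebraMap k0 K) x f = 0) ∧
      (∀ c, fv s (fun a => map E.toSubfield.subtype (P a))
        (fun a => map (algebraMap k0 K) (G a)) c x = 0) ∧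
      ∀ c, ∃ a, s a = c ∧ eval₂ (algebraMap k0 K) x (G a) ≠ 0}.Finite

/-- [PTS] the points over the fields generated by a finite set over `k'` (adaptation of
`GC.fin_points` in `GC/Setup.lean` and `GC.fin_proj` in `GC/Main.lean`; `GC.exists_all` unchanged for
`F := P`; `proj_finite` for the passage to projective space; uses S_FIN for `k0 := k'`). Here
`hgen.algebraicClosure` gives the independence over `k' = algebraicClosure k K`. -/
def S_PTS : Prop :=
  ∀ {k K : Type} [Field k] [Field K] [IsAlgClosed K] [CharZero K] [Algebra k K]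
    {n m : ℕ} (V : Set (MvPolynomial (Fin (n + 1)) (algebraicClosure k K)))
    (_ : ∀ f ∈ V, ∃ e, f.IsHomogeneous e)
    (_ : Pool.Agent.TH145.MG.DimLE (algebraicClosure k K) V m)
    {A C : Type} [Fintype A] [Fintype C] {dg eg : A → ℕ}
    (G : A → MvPolynomial (Fin (n + 1)) (algebraicClosure k K))
    (_ : ∀ a, (G a).IsHomogeneous (eg a))
    (s : A → C) (dd δ : C → ℕ) (_ : ∀ a, dg a + eg a = dd (s a)) (_ : ∀ a, δ (s a) ≤ dg a)
    (_ : 2 * m + 2 ≤ ∑ c, (δ c + 1))
    (P : A → MvPolynomial (Fin (n + 1)) K) (_ : ∀ a, (P a).IsHomogeneous (dg a))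
    (_ : AlgebraicIndependent k fun p : Cf n dg => (P p.1).coeff p.2.1) (T : Finset K),
    {p : ℙ K (Fin (n + 1) → K) | ∃ (x : Fin (n + 1) → K) (hx : x ≠ 0),
      p = Projectivization.mk K x hx ∧ (∀ f ∈ V, aeval x f = 0) ∧
      (∀ c, fv s P (fun a => map (algebraMap (algebraicClosure k K) K) (G a)) c x = 0) ∧
      (∀ c, ∃ a, s a = c ∧ aeval x (G a) ≠ 0) ∧
      ∀ i, x i ∈ IntermediateField.adjoin (algebraicClosure k K) (T : Set K)}.Finite

/-- [CURVE] (helper21) adaptation of `GE.exists_rows`, `GE.local_est`, `GE.curve_ineq`,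
`GE.curve_generic`. -/
def S_CURVE : Prop :=
  ∀ {k K : Type} [Field k] [Field K] [IsAlgClosed K] [CharZero K] [Algebra k K]
    {n m : ℕ} (V : Set (MvPolynomial (Fin (n + 1)) (algebraicClosure k K)))
    (_ : ∀ f ∈ V, ∃ e, f.IsHomogeneous e)
    (_ : Pool.Agent.TH145.MG.DimLE (algebraicClosure k K) V m)
    {A C : Type} [Fintype A] [Fintype C] {dg eg : A → ℕ}
    (G : A → MvPolynomial (Fin (n + 1)) (algebraicClosure k K))
    (_ : ∀ a, (G a).IsHomogeneous (eg a))
    (s : A → C) (dd δ : C → ℕ) (_ : ∀ a, dg a + eg a = dd (s a)) (_ : ∀ a, δ (s a) ≤ dg a)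
    (P : A → MvPolynomial (Fin (n + 1)) K) (_ : ∀ a, (P a).IsHomogeneous (dg a))
    (_ : AlgebraicIndependent k fun p : Cf n dg => (P p.1).coeff p.2.1)
    (L : Type) [Field L] [Algebra K L] [IsFF K L] (x : Fin (n + 1) → L)
    (_ : ∃ i j, x j ≠ 0 ∧ x i / x j ∉ Set.range (algebraMap K L))
    (_ : ∀ f ∈ V, aeval x (map (algebraMap (algebraicClosure k K) K) f) = 0)
    (_ : ∀ c, fv s (fun a => map (algebraMap K L) (P a)) (fun a => map (algebraMap K L)
      (map (algebraMap (algebraicClosure k K) K) (G a))) c x = 0)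
    (_ : ∀ c, ∃ a, s a = c ∧ aeval x (map (algebraMap (algebraicClosure k K) K) (G a)) ≠ 0),
    (((∑ c, (δ c + 1) : ℕ) : ℤ) - 2 * m) * pht K x ≤ canDeg K L

/-- [SM] (free) smoothness. `r` is a bound for the dimension of the zero set of the `G a`; at its
points the rank of the Jacobian matrix is at least `r + 1`. Then the partial derivatives of
`F = ∑ a, P a * G a` have no common zero.

Proof. Let `k' = algebraicClosure k K`, and let `x ≠ 0` be a common zero of the `pderiv j F` in
`K^(n+1)`; scale so that `x l0 = 1` (homogeneous). There are derivations `D b` of `K` over `k'`,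
`b = (a, I)`, `I.degree = dg a`, with `D b (coeff (a', I')) = if b = (a', I') then 1 else 0`
(`Pool.Agent.W602.GT.exists_der` and a transcendence basis that contains the coefficients, as in
`GE.exists_duals`). Apply `D b` to `eval x (pderiv j F) = 0`: the vector
`w b = fun j => eval x (pderiv j (monomial I 1 * G a))` is equal to minus the matrix
`eval x (pderiv l (pderiv j F))` times the vector `D b (x l)`. The matrix kills `x` (Euler), and `x`
and the vectors `D b ∘ x` lie in `GC.Tan k' x`, of dimension at most `t + 1` (`GE.tan_rank`), where `t`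
is a bound for the transcendence degree of `coords k' x` (`DimLE`). So the span of the `w b` has
dimension at most `t`. If all `G a` vanish at `x`, then `t = r`, `w b = x^I * (pderiv j (G a)) (x)`, and
with `I = dg a * l0` one sees the rows of the Jacobian matrix: contradiction. Otherwise `t = n`
(`GC.dimLE_univ`), and the `w b` span everything: if `G a` does not vanish at `x`, a functional `lam`
that kills all the `w b` kills the derivatives of `Q * G a` at `x` for all forms `Q` of degree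
`dg a ≥ 1`; with `Q = x_{l0}^(dg a - 1) * (x_j - x j * x_{l0})` one gets `lam j = x j * lam l0`, and
then `Q = x_{l0}^(dg a)` and Euler give `lam l0 * (dg a + eg a) * G a (x) = 0`. -/
def S_SM : Prop :=
  ∀ {k K : Type} [Field k] [Field K] [IsAlgClosed K] [CharZero K] [Algebra k K] {n r : ℕ}
    {A : Type} [Fintype A] {dg eg : A → ℕ} (d : ℕ)
    (G : A → MvPolynomial (Fin (n + 1)) (algebraicClosure k K))
    (_ : ∀ a, (G a).IsHomogeneous (eg a)) (_ : ∀ a, dg a + eg a = d) (_ : ∀ a, 1 ≤ dg a)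
    (P : A → MvPolynomial (Fin (n + 1)) K) (_ : ∀ a, (P a).IsHomogeneous (dg a))
    (_ : AlgebraicIndependent k fun p : Cf n dg => (P p.1).coeff p.2.1)
    (_ : Pool.Agent.TH145.MG.DimLE (algebraicClosure k K) (Set.range G) r)
    (_ : ∀ x : Fin (n + 1) → K, x ≠ 0 → (∀ a, aeval x (G a) = 0) →
      r + 1 ≤ (Matrix.of fun (a : A) (j : Fin (n + 1)) => aeval x (pderiv j (G a))).rank)
    (x : Fin (n + 1) → K) (_ : x ≠ 0),
    ∃ j, eval x (pderiv j (∑ a, P a * map (algebraMap (algebraicClosure k K) K) (G a))) ≠ 0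

end

end Pool.Agent.Helper21K9.UV
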