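import Pool.Agent.Helper21K9.UV.Rows
import Pool.Agent.Helper21K9.UV.Stm

/-!
The local inequality.
-/

set_option autoImplicit false

open MvPolynomial FF Pool.Agent.W603.LV Pool.Agent.W603.PV Pool.Agent.TH145.GH
open Pool.Agent.TH145.GC (Ev dF_sub dF_self ord_prod exists_minor ge_det)
open Pool.Agent.TH145.GD (Ti tv St sM sM_mem mon_step sM_zero sM_top single_mem deg_St finite_St)
open Pool.Agent.TH145.GE

namespace Pool.Agent.Helper21K9.UV

variable {k K : Type} [Field k] [Field K] [Algebra k K]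
  {n : ℕ} {A X : Type} {c0 : Fin (n + 1)} {dg : A → ℕ}
  {D : A → (Fin (n + 1) →₀ ℕ) → Derivation ℤ K K} {E : X → Derivation ℤ K K}

open scoped Classical in
/-- The forms whose rows belong to `b`. -/
noncomputable def rowF [Fintype A] (b : Finset (Ix X n A ⊕ A)) : Finset A :=
  Finset.univ.filter fun a => Sum.inr a ∈ b

theorem mem_rowF [Fintype A] {b : Finset (Ix X n A ⊕ A)} {a : A} :
    a ∈ rowF b ↔ Sum.inr a ∈ b := by
  classical
  unfold rowF
  rw [Finset.mem_filter]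
  exact ⟨fun h => h.2, fun h => ⟨Finset.mem_univ _, h⟩⟩

theorem prod_rowF [Fintype A] {M : Type} [CommMonoid M] {b : Finset (Ix X n A ⊕ A)}
    (dec : ∀ a : A, Decidable (Sum.inr a ∈ b)) (f : A → M) :
    (∏ a, if Sum.inr a ∈ b then f a else 1) = ∏ a ∈ rowF b, f a := by
  classical
  unfold rowF
  rw [Finset.prod_filter]
  exact Finset.prod_congr rfl fun a _ => by split_ifs <;> rfl

theorem sum_rowF [Fintype A] {M : Type} [AddCommMonoid M] {b : Finset (Ix X n A ⊕ A)}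
    (dec : ∀ a : A, Decidable (Sum.inr a ∈ b)) (f : A → M) :
    (∑ a, if Sum.inr a ∈ b then f a else 0) = ∑ a ∈ rowF b, f a := by
  classical
  unfold rowF
  rw [Finset.sum_filter]
  exact Finset.sum_congr rfl fun a _ => by split_ifs <;> rfl

open scoped Classical in
theorem local_gen [Fintype A] (P : Place k K) {x : Fin (n + 1) → K} (he0 : x c0 ≠ 0)
    {b : Finset (Ix X n A ⊕ A)} (hb : Sum.inl none ∈ b) (σ : b → Fin (n + 1))
    (hspan : Submodule.span K (Set.range (wv c0 dg D E x)) ≤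
        Submodule.span K (wv c0 dg D E x '' {o | Sum.inl o ∈ b}))
    (hdet : (mx c0 dg D E x (fun a => Finsupp.single c0 (dg a)) b σ).det ≠ 0) (ω : ℤ)
    (hord : ∀ (x' : Fin (n + 1) → K) (e1 : Fin (n + 1)), (∀ l, Ge P 0 (x' l)) → x' e1 = 1 →
      (mx c0 dg D E x' (fun a => Finsupp.single e1 (dg a)) b σ).det ≠ 0 →
      ω ≤ P.ord (mx c0 dg D E x' (fun a => Finsupp.single e1 (dg a)) b σ).det) :
    ((∑ i ∈ b, rd i : ℕ) - (∑ a ∈ rowF b, dg a : ℕ)) * pord P x + ω ≤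
      P.ord ((mx c0 dg D E x (fun a => Finsupp.single c0 (dg a)) b σ).det /
        ∏ a ∈ rowF b, x c0 ^ dg a) := by
  rw [← sum_rowF (fun a => inferInstance) dg, ← prod_rowF (fun a => inferInstance)
    (fun a => x c0 ^ dg a)]
  have hx0 : x ≠ 0 := by
    rintro rfl
    exact he0 rfl
  obtain ⟨lam, x', hlam, hlamP, hxx, hx', e1, he1⟩ := exists_scaled P hx0
  have hdeg : ∀ a, Finsupp.single e1 (dg a) ∈ St c0 (dg a) := fun a => single_mem _
  obtain ⟨dx, hdx⟩ : ∃ dx, dx = (mx c0 dg D E x (fun a => Finsupp.single c0 (dg a)) b σ).det :=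
    ⟨_, rfl⟩
  obtain ⟨dx', hdx'⟩ : ∃ dx', dx' = (mx c0 dg D E x' (fun a => Finsupp.single e1 (dg a)) b σ).det :=
    ⟨_, rfl⟩
  have h1 := det_change he0 σ hspan (fun a => Finsupp.single e1 (dg a)) hdeg
  have h2 := det_lam (c0 := c0) (dg := dg) (D := D) (E := E) (x := x') lam hb σ
    (fun a => Finsupp.single e1 (dg a))
  rw [← hxx, ← hdx'] at h2
  rw [← hdx, h2] at h1
  have hmon : ∀ a, mon x (Finsupp.single e1 (dg a)) = lam ^ dg a := fun a => by
    rw [mon_single, hxx, Pi.smul_apply, he1, smul_eq_mul, mul_one]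
  simp only [hmon] at h1
  rw [← hdx] at hdet ⊢
  obtain ⟨Z, hZ⟩ : ∃ Z, Z = ∏ a, if Sum.inr a ∈ b then x c0 ^ dg a else 1 := ⟨_, rfl⟩
  have hZ0 : Z ≠ 0 := by
    rw [hZ]
    refine Finset.prod_ne_zero_iff.2 fun a _ => ?_
    split_ifs with ha
    · exact pow_ne_zero _ he0
    · exact one_ne_zero
  rw [← hZ]
  have h3 : (∏ a, if Sum.inr a ∈ b then lam ^ dg a / x c0 ^ dg a else 1) * Z =
      lam ^ (∑ a, if Sum.inr a ∈ b then dg a else 0) := by
    rw [hZ, ← Finset.prod_pow_eq_pow_sum, ← Finset.prod_mul_distrib]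
    refine Finset.prod_congr rfl fun a _ => ?_
    by_cases ha : Sum.inr a ∈ b
    · simp only [ha, if_true]
      rw [div_mul_cancel₀ _ (pow_ne_zero _ he0)]
    · simp only [ha, if_false, mul_one, pow_zero]
  have h4 : lam ^ (∑ i ∈ b, rd i) * dx' = dx / Z * lam ^ (∑ a, if Sum.inr a ∈ b then dg a else 0) := by
    rw [h1, ← h3]
    field_simp
  have hlp : ∀ m : ℕ, lam ^ m ≠ 0 := fun m => pow_ne_zero _ hlam
  have hq0 : dx / Z ≠ 0 := div_ne_zero hdet hZ0
  have hdx'0 : dx' ≠ 0 := by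
    intro h0
    rw [h0, mul_zero] at h4
    exact mul_ne_zero hq0 (hlp _) h4.symm
  have h5 := congrArg P.ord h4
  rw [P.ord_mul (hlp _) hdx'0, P.ord_mul hq0 (hlp _), P.ord_pow, P.ord_pow, hlamP] at h5
  have h7 := hord x' e1 hx' he1 (by rw [← hdx']; exact hdx'0)
  rw [← hdx'] at h7
  rw [sub_mul]
  linarith

variable [IsAlgClosed k] [CharZero k] [IsFF k K] {δ : Derivation k K K}

open scoped Classical in
/-- The order of the determinant at a scaled point of a curve. -/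
theorem ord_det_curve' (hS : ∀ a I, Sem k (D a I)) (hδ : δ ≠ 0) (P : Place k K)
    {x : Fin (n + 1) → K} (hx : ∀ l, Ge P 0 (x l)) (e1 : Fin (n + 1))
    {b : Finset (Ix Unit n A ⊕ A)} (hb : ∀ i ∈ Vert Unit n A, i ∈ b) (σ : b → Fin (n + 1))
    (hdet : (mx c0 dg D (vert δ) x (fun a => Finsupp.single e1 (dg a)) b σ).det ≠ 0) :
    vo P δ ≤ P.ord (mx c0 dg D (vert δ) x (fun a => Finsupp.single e1 (dg a)) b σ).det := by
  have hπ := ord_unif P
  obtain ⟨π, hπd⟩ : ∃ π, π = unif P := ⟨_, rfl⟩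
  rw [← hπd] at hπ
  have hπ0 : π ≠ 0 := by
    rintro rfl
    rw [P.ord_zero] at hπ
    exact absurd hπ (by norm_num)
  have hδπ : δ π ≠ 0 := der_pi_ne_zero hδ P hπ
  have hvo : vo P δ = P.ord (δ π) := by rw [hπd]; rfl
  -- the local derivation
  obtain ⟨δP, hδP⟩ : ∃ δP : Derivation k K K, δP = (δ π)⁻¹ • δ := ⟨_, rfl⟩
  have hδP1 : δP π = 1 := by
    rw [hδP]; simp [hδπ]
  have hreg : ∀ f, Ge P 0 f → Ge P 0 (δP f) := fun f hf => der_reg P hπ δP hδP1 hf
  obtain ⟨DP, hDP⟩ : ∃ DP : A → (Fin (n + 1) →₀ ℕ) → Derivation ℤ K K, ∀ a I,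
    DP a I = D a I - (D a I π / δ π) • δ.restrictScalars ℤ := ⟨_, fun _ _ => rfl⟩
  have hDPf : ∀ a I f, DP a I f = D a I f - D a I π / δ π * δ f := fun a I f => by
    rw [hDP, Derivation.sub_apply, Derivation.smul_apply, smul_eq_mul]
    rfl
  have hPres : Pres P c0 dg DP := by
    intro f hf a I _
    refine ge_of_kill P (fun c => ?_) hπ ?_ hf
    · obtain ⟨c', hc'⟩ := hS a I c
      refine ⟨c', ?_⟩
      rw [hDPf, hc', Derivation.map_algebraMap, mul_zero, sub_zero]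
    · rw [hDPf, div_mul_cancel₀ _ hδπ, sub_self]
  have hDP' : ∀ a I f, DP a I f = D a I f + ∑ ξ : Unit, (-(D a I π / δ π)) * vert δ ξ f :=
    fun a I f => by
      rw [hDPf, Finset.univ_unique, Finset.sum_singleton]
      change _ = _ + -(D a I π / δ π) * δ f
      ring
  have hmem : Sum.inl (some (Sum.inl ())) ∈ b := hb _ (Or.inr ⟨(), rfl⟩)
  have h1 := det_add_vert (c0 := c0) (dg := dg) (D := D) (E := vert δ)
    (κ := fun a I _ => -(D a I π / δ π)) hDP' (x := x) hb σ (fun a => Finsupp.single e1 (dg a))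
  obtain ⟨E', hE'⟩ : ∃ E' : Unit → Derivation ℤ K K, ∀ ξ,
    E' ξ = (δ π)⁻¹ • δ.restrictScalars ℤ := ⟨_, fun _ => rfl⟩
  have hE'f : ∀ ξ f, E' ξ f = (δ π)⁻¹ * δ f := fun ξ f => by
    rw [hE', Derivation.smul_apply, smul_eq_mul]
    rfl
  have h2 := det_smul_vert (c0 := c0) (dg := dg) (D := DP) (E := vert δ) (E' := E') (u := δ π)
    (fun f => by
      rw [hE'f, ← mul_assoc, mul_inv_cancel₀ hδπ, one_mul]
      rfl) (x := x) hmem σ (fun a => Finsupp.single e1 (dg a))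
  rw [← h1, h2] at hdet ⊢
  have hdet' : (mx c0 dg DP E' x (fun a => Finsupp.single e1 (dg a)) b σ).det ≠ 0 := by
    intro h0
    rw [h0, mul_zero] at hdet
    exact hdet rfl
  rw [P.ord_mul hδπ hdet', ← hvo]
  have h3 := (ge_det P (mx c0 dg DP E' x (fun a => Finsupp.single e1 (dg a)) b σ) (c := 0)
    (fun i j => by
      rw [neg_zero]
      exact ge_vv hPres hx (fun ξ l => by
        rw [hE'f]
        have h6 : (δ π)⁻¹ * δ (x l) = δP (x l) := by
          rw [hδP, Derivation.smul_apply, smul_eq_mul]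
        rw [h6]
        exact hreg _ (hx l)) (fun a => single_mem _) _ _)).resolve_left hdet'
  rw [mul_zero, neg_zero] at h3
  linarith

end Pool.Agent.Helper21K9.UV
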