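import Pool.Agent.Helper21K9.UV.Sm

/-!
The singular points of the generic hypersurface through the zero set of the `G a`.
-/

set_option autoImplicit false

open MvPolynomial Pool.Agent.TH145.GH
open Pool.Agent.TH145.GC (Cf Tan)
open Pool.Agent.TH145.MG (DimLE)

namespace Pool.Agent.Helper21K9.UV

/-- A common zero of the partial derivatives of `∑ P a * G a` is a common zero of the `G a` at which
the rank of their Jacobian matrix is at most the dimension of their zero set. -/
theorem sm_pt {k K : Type} [Field k] [Field K] [IsAlgClosed K] [CharZero K] [Algebra k K] {n r : ℕ}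
    {A : Type} [Fintype A] {dg eg : A → ℕ} (d : ℕ)
    (G : A → MvPolynomial (Fin (n + 1)) (algebraicClosure k K))
    (hG : ∀ a, (G a).IsHomogeneous (eg a)) (hd : ∀ a, dg a + eg a = d) (hdg : ∀ a, 1 ≤ dg a)
    (P : A → MvPolynomial (Fin (n + 1)) K) (hP : ∀ a, (P a).IsHomogeneous (dg a))
    (hind : AlgebraicIndependent k fun p : Cf n dg => (P p.1).coeff p.2.1)
    (hdim : DimLE (algebraicClosure k K) (Set.range G) r)
    (x : Fin (n + 1) → K) (hx : x ≠ 0)
    (hcon : ∀ j, eval x (pderiv j (∑ a, P a * map (algebraMap (algebraicClosure k K) K) (G a))) = 0) :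
    (∀ a, aeval x (G a) = 0) ∧
      (Matrix.of fun (a : A) (j : Fin (n + 1)) => aeval x (pderiv j (G a))).rank ≤ r := by
  classical
  have hind1 : AlgebraicIndependent (algebraicClosure k K) fun p : Cf n dg => (P p.1).coeff p.2.1 :=
    hind.algebraicClosure
  have hk1 : CharZero (algebraicClosure k K) := by
    constructor
    intro a b hab
    have h1 := congrArg (algebraMap (algebraicClosure k K) K) hab
    rw [map_natCast, map_natCast] at h1
    exact Nat.cast_injective h1
  obtain ⟨l0, hl0⟩ := Function.ne_iff.1 hx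
  have hl0 : x l0 ≠ 0 := hl0
  have hl0' : (x l0)⁻¹ ≠ 0 := inv_ne_zero hl0
  have hFh : (∑ a, P a * map (algebraMap (algebraicClosure k K) K) (G a)).IsHomogeneous d := by
    refine IsHomogeneous.sum _ _ _ fun a _ => ?_
    rw [← hd a]
    exact (hP a).mul ((hG a).map _)
  have hz : ∀ a, aeval ((x l0)⁻¹ • x) (G a) = (x l0)⁻¹ ^ eg a * aeval x (G a) := fun a =>
    Pool.Agent.TH145.MG.aeval_smul (hG a) _ _
  by_contra hno
  refine SmL.core (r := r) d G hG hd hdg P hP hind1 hdim ((x l0)⁻¹ • x) l0 (by
    rw [Pi.smul_apply, smul_eq_mul, inv_mul_cancel₀ hl0]) (fun hall => ?_) fun j => ?_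
  · by_contra hrk
    apply hno
    refine ⟨fun a => ?_, ?_⟩
    · have h1 := hall a
      rw [hz] at h1
      exact (mul_eq_zero.1 h1).resolve_left (pow_ne_zero _ hl0')
    · have h2 : (Matrix.of fun (a : A) (j : Fin (n + 1)) => aeval x (pderiv j (G a))) =
          Matrix.diagonal (fun a => ((x l0)⁻¹ ^ (eg a - 1))⁻¹) *
            (Matrix.of fun (a : A) (j : Fin (n + 1)) => aeval ((x l0)⁻¹ • x) (pderiv j (G a))) := by
        ext a j
        rw [Matrix.diagonal_mul, Matrix.of_apply, Matrix.of_apply,
          Pool.Agent.TH145.MG.aeval_smul (hG a).pderiv, ← mul_assoc,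
          inv_mul_cancel₀ (pow_ne_zero _ hl0'), one_mul]
      rw [h2]
      refine (Matrix.rank_mul_le_right _ _).trans ?_
      omega
  · rw [eval_smul_hom (hFh.pderiv (i := j)), hcon j, mul_zero]

end Pool.Agent.Helper21K9.UV
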