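import Pool.Agent.Helper21K9.UV.Curve
import Pool.Agent.Helper21K9.UV.SmPt
import Pool.Agent.Helper21K9.UV.Equiv

/-!
Assembly: generic hypersurfaces through given closed sets.
-/

set_option autoImplicit false

open MvPolynomial FF Pool.Agent.W603.LV Pool.Agent.W603.PV LinearAlgebra.Projectivization
open Pool.Agent.TH145.GC (Cf)
open Pool.Agent.TH145.MG (DimLE)

namespace Pool.Agent.Helper21K9.UV

section

variable {k K : Type} [Field k] [Field K] [Algebra k K] {n : ℕ}

/-- The equations of the intersection of `V` with the hypersurfaces `F c = 0`. -/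
def eqH (V : Set (MvPolynomial (Fin (n + 1)) (algebraicClosure k K))) {C : Type}
    (F : C → MvPolynomial (Fin (n + 1)) K) : Set (MvPolynomial (Fin (n + 1)) K) :=
  map (algebraMap (algebraicClosure k K) K) '' V ∪ Set.range F

/-- The equations of the part of `V ∩ ⋂ (F c = 0)` in the closed set given by the forms `G j`. -/
def eqX (V : Set (MvPolynomial (Fin (n + 1)) (algebraicClosure k K))) {C : Type}
    (F : C → MvPolynomial (Fin (n + 1)) K) {J : Type}
    (G : J → MvPolynomial (Fin (n + 1)) (algebraicClosure k K)) :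
    Set (MvPolynomial (Fin (n + 1)) K) :=
  eqH V F ∪ Set.range fun j => map (algebraMap (algebraicClosure k K) K) (G j)

theorem eqH_sub (V : Set (MvPolynomial (Fin (n + 1)) (algebraicClosure k K))) {C : Type}
    (F : C → MvPolynomial (Fin (n + 1)) K) {J : Type}
    (G : J → MvPolynomial (Fin (n + 1)) (algebraicClosure k K)) : eqH V F ⊆ eqX V F G :=
  Set.subset_union_left

/-- The sum over the pairs. -/
theorem sum_sigma_fv {M : Type} [Field M] {C : Type} [Fintype C] {J : C → Type}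
    [∀ c, Fintype (J c)] (P G : (Σ c, J c) → MvPolynomial (Fin (n + 1)) M) (c : C)
    (x : Fin (n + 1) → M) :
    fv Sigma.fst P G c x = ∑ j, eval x (P ⟨c, j⟩) * eval x (G ⟨c, j⟩) := by
  classical
  unfold fv
  rw [Fintype.sum_sigma, Finset.sum_eq_single c]
  · simp
  · intro c' _ hc'
    refine Finset.sum_eq_zero fun j _ => ?_
    rw [if_neg]
    exact hc'
  · intro h
    exact absurd (Finset.mem_univ c) h

variable {C : Type} {J : C → Type} [∀ c, Fintype (J c)]
  {G : ∀ c, J c → MvPolynomial (Fin (n + 1)) (algebraicClosure k K)}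
  {P : ∀ c, J c → MvPolynomial (Fin (n + 1)) K} {F : C → MvPolynomial (Fin (n + 1)) K}
  (hF : ∀ c, F c = ∑ j, P c j * map (algebraMap (algebraicClosure k K) K) (G c j))

include hF

theorem F_zero {L : Type} [Field L] [Algebra K L] {x : Fin (n + 1) → L} {c : C}
    (h : ∀ j, aeval x (map (algebraMap (algebraicClosure k K) K) (G c j)) = 0) :
    aeval x (F c) = 0 := by
  rw [hF, map_sum]
  exact Finset.sum_eq_zero fun j _ => by rw [map_mul, h, mul_zero]

end

section

variable {k K : Type} [Field k] [Field K] [IsAlgClosed K] [CharZero K] [Algebra k K] {n m : ℕ}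
  {V : Set (MvPolynomial (Fin (n + 1)) (algebraicClosure k K))}
  (hVh : ∀ f ∈ V, ∃ e, f.IsHomogeneous e) (hV : DimLE (algebraicClosure k K) V m)
  {C : Type} [Fintype C] {J : C → Type} [∀ c, Fintype (J c)] {e : ∀ c, J c → ℕ}
  {G : ∀ c, J c → MvPolynomial (Fin (n + 1)) (algebraicClosure k K)}
  (hG : ∀ c j, (G c j).IsHomogeneous (e c j)) {d : ∀ c, J c → ℕ}
  {P : ∀ c, J c → MvPolynomial (Fin (n + 1)) K} (hP : ∀ c j, (P c j).IsHomogeneous (d c j))
  (hgen : AlgebraicIndependent k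
    fun p : (a : Σ c, J c) × {I : Fin (n + 1) →₀ ℕ // I.degree = d a.1 a.2} =>
      (P p.1.1 p.1.2).coeff p.2.1)
  {dd : C → ℕ} (hdd : ∀ c j, d c j + e c j = dd c) {F : C → MvPolynomial (Fin (n + 1)) K}
  (hF : ∀ c, F c = ∑ j, P c j * map (algebraMap (algebraicClosure k K) K) (G c j))

include hVh hV hG hP hgen hdd hF

theorem main_curve {δ : C → ℕ} (hδ : ∀ c j, δ c ≤ d c j) (L : Type) [Field L] [Algebra K L]
    [IsFF K L] (x : Fin (n + 1) → L)
    (hx : ∃ i j, x j ≠ 0 ∧ x i / x j ∉ Set.range (algebraMap K L)) (hxH : IsMap (eqH V F) x)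
    (hxX : ∀ c, ¬ IsMap (eqX V F (G c)) x) :
    (((∑ c, (δ c + 1) : ℕ) : ℤ) - 2 * m) * pht K x ≤ canDeg K L := by
  have hne : ∀ c, ∃ j, aeval x (map (algebraMap (algebraicClosure k K) K) (G c j)) ≠ 0 := by
    intro c
    by_contra h
    push Not at h
    apply hxX c
    refine ⟨hxH.1, ?_⟩
    rintro f (hf | ⟨j, rfl⟩)
    · exact hxH.2 f hf
    · exact h j
  refine curve (C := C) V hVh hV (A := Σ c, J c) (dg := fun a => d a.1 a.2)
    (eg := fun a => e a.1 a.2) (fun a => G a.1 a.2) (fun a => hG a.1 a.2) Sigma.fst dd δ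
    (fun a => hdd a.1 a.2) (fun a => hδ a.1 a.2) (fun a => P a.1 a.2) (fun a => hP a.1 a.2) hgen L x
    hx (fun f hf => hxH.2 _ (Or.inl ⟨f, hf, rfl⟩)) (fun c => ?_) (fun c => ?_)
  · rw [sum_sigma_fv]
    have h1 := hxH.2 (F c) (Or.inr ⟨c, rfl⟩)
    rw [hF, map_sum] at h1
    rw [← h1]
    refine Finset.sum_congr rfl fun j _ => ?_
    rw [map_mul, eval_map, eval_map]
    rfl
  · obtain ⟨j, hj⟩ := hne c
    exact ⟨⟨c, j⟩, rfl, hj⟩

omit hVh hV in
theorem main_sing (c : C) {r : ℕ} (hd1 : ∀ j, 1 ≤ d c j)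
    (hr : DimLE (algebraicClosure k K) (Set.range (G c)) r) (x : Fin (n + 1) → K) (hx : x ≠ 0)
    (h0 : ∀ l, eval x (pderiv l (F c)) = 0) : (∀ j, aeval x (G c j) = 0) ∧
      (Matrix.of fun (j : J c) (l : Fin (n + 1)) => aeval x (pderiv l (G c j))).rank ≤ r := by
  refine sm_pt (dd c) (G c) (hG c) (hdd c) hd1 (P c) (hP c) ?_ hr x hx (fun l => ?_)
  · refine hgen.comp (fun p : Cf n (d c) => (⟨⟨c, p.1⟩, p.2⟩ :
      (a : Σ c, J c) × {I : Fin (n + 1) →₀ ℕ // I.degree = d a.1 a.2})) ?_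
    rintro ⟨j, I⟩ ⟨j', I'⟩ h
    have h1 : (⟨c, j⟩ : Σ c, J c) = ⟨c, j'⟩ := congrArg Sigma.fst h
    obtain rfl : j = j' := eq_of_heq (Sigma.mk.inj_iff.1 h1).2
    have h2 : I = I' := eq_of_heq (Sigma.mk.inj_iff.1 h).2
    subst h2
    rfl
  · rw [← hF]
    exact h0 l

end

end Pool.Agent.Helper21K9.UV
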