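import Pool.Agent.Helper21K9.UV.Main
import Pool.Agent.Helper53K9.UV.Pts

/-!
Assembly: points, and the equivalences.
-/

set_option autoImplicit false

open MvPolynomial FF Pool.Agent.W603.LV Pool.Agent.W603.PV LinearAlgebra.Projectivization
open Pool.Agent.TH145.GC (Cf)
open Pool.Agent.TH145.MG (DimLE)

namespace Pool.Agent.Helper21K9.UV

/-- The points of degree at most `ν` over the field `E`: the points with homogeneous coordinates in
some extension of `E` in `K` of degree at most `ν`. -/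
def DegPts {k K : Type} [Field k] [Field K] [Algebra k K] {n : ℕ}
    (S : Set (MvPolynomial (Fin (n + 1)) K)) (E : IntermediateField k K) (ν : ℕ) :
    Set (ℙ K (Fin (n + 1) → K)) :=
  {p | ∃ (x : Fin (n + 1) → K) (hx : x ≠ 0), p = Projectivization.mk K x hx ∧
    (∀ F ∈ S, eval x F = 0) ∧ ∃ U : IntermediateField E K, FiniteDimensional E U ∧
      Module.finrank E U ≤ ν ∧ ∀ i, x i ∈ U}

section

variable {k K : Type} [Field k] [Field K] [IsAlgClosed K] [CharZero K] [Algebra k K] {n m : ℕ}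
  {V : Set (MvPolynomial (Fin (n + 1)) (algebraicClosure k K))}
  (hVh : ∀ f ∈ V, ∃ e, f.IsHomogeneous e) (hV : DimLE (algebraicClosure k K) V m)
  {C : Type} [Fintype C] {J : C → Type} [∀ c, Fintype (J c)] {e : ∀ c, J c → ℕ}
  {G : ∀ c, J c → MvPolynomial (Fin (n + 1)) (algebraicClosure k K)}
  (hG : ∀ c j, (G c j).IsHomogeneous (e c j)) {d : ∀ c, J c → ℕ}
  {P : ∀ c, J c → MvPolynomial (Fin (n + 1)) K} (hP : ∀ c j, (P c j).IsHomogeneous (d c j))
  (hgen : AlgebraicIndependent k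
    fun p : (a : Σ c, J c) × {I : Fin (n + 1) →₀ ℕ // I.degree = d a.1 a.2} =>
      (P p.1.1 p.1.2).coeff p.2.1)
  {dd : C → ℕ} (hdd : ∀ c j, d c j + e c j = dd c) {F : C → MvPolynomial (Fin (n + 1)) K}
  (hF : ∀ c, F c = ∑ j, P c j * map (algebraMap (algebraicClosure k K) K) (G c j))

include hVh hV hG hP hgen hdd hF

theorem main_pts {δ : C → ℕ} (hδ : ∀ c j, δ c ≤ d c j) {ν : ℕ}
    (hd : 2 * m + 2 * ν ≤ ∑ c, (δ c + 1)) (T : Finset K) :
    {p : ℙ K (Fin (n + 1) → K) | ∃ (x : Fin (n + 1) → K) (hx : x ≠ 0),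
      p = Projectivization.mk K x hx ∧ (∀ f ∈ eqH V F, eval x f = 0) ∧
      (∀ c, ¬ ∀ f ∈ eqX V F (G c), eval x f = 0) ∧
      ∃ U : IntermediateField (IntermediateField.adjoin (algebraicClosure k K) (T : Set K)) K,
        FiniteDimensional (IntermediateField.adjoin (algebraicClosure k K) (T : Set K)) U ∧
        Module.finrank (IntermediateField.adjoin (algebraicClosure k K) (T : Set K)) U ≤ ν ∧
        ∀ i, x i ∈ U}.Finite := by
  refine (Pool.Agent.Helper53K9.UV.pts_nu (ν := ν) V hVh hV (A := Σ c, J c)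
    (dg := fun a => d a.1 a.2) (eg := fun a => e a.1 a.2) (fun a => G a.1 a.2)
    (fun a => hG a.1 a.2) Sigma.fst dd δ (fun a => hdd a.1 a.2) (fun a => hδ a.1 a.2) hd
    (fun a => P a.1 a.2) (fun a => hP a.1 a.2) hgen T).subset ?_
  rintro p ⟨x, hx, hp, hxH, hxX, hU⟩
  have hev : ∀ c j, eval x (map (algebraMap (algebraicClosure k K) K) (G c j)) =
      aeval x (G c j) := fun c j => by
    rw [eval_map]
    rfl
  refine ⟨x, hx, hp, fun f hf => ?_, fun c => ?_, fun c => ?_, hU⟩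
  · have h1 := hxH _ (Or.inl ⟨f, hf, rfl⟩)
    rw [eval_map] at h1
    exact h1
  · have h1 := sum_sigma_fv (fun a : Σ c, J c => P a.1 a.2)
      (fun a : Σ c, J c => map (algebraMap (algebraicClosure k K) K) (G a.1 a.2)) c x
    unfold fv at h1
    rw [h1]
    have h2 := hxH (F c) (Or.inr ⟨c, rfl⟩)
    rw [hF, map_sum] at h2
    rw [← h2]
    exact Finset.sum_congr rfl fun j _ => by rw [map_mul]
  · by_contra h
    push Not at h
    apply hxX c
    rintro f (hf | ⟨j, rfl⟩)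
    · exact hxH f hf
    · dsimp only
      rw [hev]
      exact h ⟨c, j⟩ rfl

theorem main_pts1 {δ : C → ℕ} (hδ : ∀ c j, δ c ≤ d c j)
    (hd : 2 * m + 2 ≤ ∑ c, (δ c + 1)) (T : Finset K) :
    {p : ℙ K (Fin (n + 1) → K) | ∃ (x : Fin (n + 1) → K) (hx : x ≠ 0),
      p = Projectivization.mk K x hx ∧ (∀ f ∈ eqH V F, eval x f = 0) ∧
      (∀ c, ¬ ∀ f ∈ eqX V F (G c), eval x f = 0) ∧
      ∀ i, x i ∈ (IntermediateField.adjoin (algebraicClosure k K) (T : Set K)).toSubfield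
      }.Finite := by
  refine (main_pts hVh hV hG hP hgen hdd hF hδ (ν := 1) hd T).subset ?_
  rintro p ⟨x, hx, hp, hxH, hxX, hU⟩
  refine ⟨x, hx, hp, hxH, hxX, ⊥, inferInstance, ?_, fun i => ?_⟩
  · exact (IntermediateField.finrank_bot).le
  · rw [IntermediateField.mem_bot]
    exact ⟨⟨x i, hU i⟩, rfl⟩

/-- The points outside the given closed sets. -/
theorem main_diff {δ : C → ℕ} (hδ : ∀ c j, δ c ≤ d c j) {ν : ℕ}
    (hd : 2 * m + 2 * ν ≤ ∑ c, (δ c + 1)) (T : Finset K) :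
    (DegPts (eqH V F) (IntermediateField.adjoin (algebraicClosure k K) (T : Set K)) ν \
      ⋃ c, DegPts (eqX V F (G c))
        (IntermediateField.adjoin (algebraicClosure k K) (T : Set K)) ν).Finite := by
  refine (main_pts hVh hV hG hP hgen hdd hF hδ hd T).subset ?_
  rintro p ⟨⟨x, hx, hp, hxH, hU⟩, hpX⟩
  refine ⟨x, hx, hp, hxH, fun c hc => hpX ?_, hU⟩
  exact Set.mem_iUnion.2 ⟨c, x, hx, hp, hc, hU⟩

/-- The equivalences. -/
theorem main_equiv {δ : C → ℕ} (hδ : ∀ c j, δ c ≤ d c j) {ν : ℕ} (hν : 1 ≤ ν)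
    (hd : 2 * m + 2 * ν ≤ ∑ c, (δ c + 1)) :
    (AlgHyp (eqH V F) ↔ ∀ c, AlgHyp (eqX V F (G c))) ∧
    (Bounded (eqH V F) ↔ ∀ c, Bounded (eqX V F (G c))) ∧
    (GenusOne (eqH V F) ↔ ∀ c, GenusOne (eqX V F (G c))) ∧
    ((∀ T : Finset K, (RingPts (eqH V F) T).Finite) ↔
      ∀ c, ∀ T : Finset K, (RingPts (eqX V F (G c)) T).Finite) ∧
    ((∀ T : Finset K, (DegPts (eqH V F)
        (IntermediateField.adjoin (algebraicClosure k K) (T : Set K)) ν).Finite) ↔
      ∀ c, ∀ T : Finset K, (DegPts (eqX V F (G c))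
        (IntermediateField.adjoin (algebraicClosure k K) (T : Set K)) ν).Finite) := by
  have hE : ∀ c, eqH V F ⊆ eqX V F (G c) := fun c => eqH_sub V F (G c)
  have hd1 : 2 * m + 2 ≤ ∑ c, (δ c + 1) := by omega
  have hcurve : ∀ (L : Type) [Field L] [Algebra K L] [IsFF K L] (f : Fin (n + 1) → L),
      (∃ i j, f j ≠ 0 ∧ f i / f j ∉ Set.range (algebraMap K L)) → IsMap (eqH V F) f →
      (∀ c, ¬ IsMap (eqX V F (G c)) f) → pht K f ≤ canDeg K L := by
    intro L _ _ _ f hnc hf hfX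
    have h1 := main_curve hVh hV hG hP hgen hdd hF hδ L f hnc hf hfX
    have h2 : 0 ≤ pht K f := pht_nonneg hf.1
    have h3 : (2 : ℤ) ≤ ((∑ c, (δ c + 1) : ℕ) : ℤ) - 2 * m := by
      have : ((2 * m + 2 : ℕ) : ℤ) ≤ ((∑ c, (δ c + 1) : ℕ) : ℤ) := by exact_mod_cast hd1
      push_cast at this ⊢
      linarith
    nlinarith
  have hpts := main_pts1 hVh hV hG hP hgen hdd hF hδ hd1
  refine ⟨algHyp_iff hE hcurve, bounded_iff hE hcurve, genusOne_iff hE hcurve,
    ringPts_iff hE _ (fun T => ?_) hpts, fun h c T => ?_, fun h T => ?_⟩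
  · have h1 : Subring.closure (T : Set K) ≤ (IntermediateField.adjoin (algebraicClosure k K)
        (T : Set K)).toSubfield.toSubring :=
      Subring.closure_le.2 (IntermediateField.subset_adjoin _ _)
    exact h1
  · refine (h T).subset ?_
    rintro p ⟨x, hx, hp, hF, hU⟩
    exact ⟨x, hx, hp, fun F hFS => hF F (hE c hFS), hU⟩
  · refine ((main_diff hVh hV hG hP hgen hdd hF hδ hd T).union
      (Set.finite_iUnion fun c => h c T)).subset fun p hp => ?_
    by_cases h1 : p ∈ ⋃ c, DegPts (eqX V F (G c))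
        (IntermediateField.adjoin (algebraicClosure k K) (T : Set K)) ν
    · exact Or.inr h1
    · exact Or.inl ⟨hp, h1⟩

end

end Pool.Agent.Helper21K9.UV
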