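import Pool.Agent.Helper21K9.UV.Main
import Pool.Agent.Helper53K9.UV.Crv

/-!
Assembly: families of points of bounded degree over curves.
-/

set_option autoImplicit false

open MvPolynomial FF Pool.Agent.W603.LV Pool.Agent.W603.PV LinearAlgebra.Projectivization
open Pool.Agent.TH145.GC (Cf)
open Pool.Agent.TH145.MG (DimLE)

namespace Pool.Agent.Helper21K9.UV

section

variable {k K : Type} [Field k] [Field K] [IsAlgClosed K] [CharZero K] [Algebra k K] {n m : ℕ}
  {V : Set (MvPolynomial (Fin (n + 1)) (algebraicClosure k K))}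
  (hVh : ∀ f ∈ V, ∃ e, f.IsHomogeneous e) (hV : DimLE (algebraicClosure k K) V m)
  {C : Type} [Fintype C] {J : C → Type} [∀ c, Fintype (J c)] {e : ∀ c, J c → ℕ}
  {G : ∀ c, J c → MvPolynomial (Fin (n + 1)) (algebraicClosure k K)}
  (hG : ∀ c j, (G c j).IsHomogeneous (e c j)) {d : ∀ c, J c → ℕ}
  {P : ∀ c, J c → MvPolynomial (Fin (n + 1)) K} (hP : ∀ c j, (P c j).IsHomogeneous (d c j))
  (hgen : AlgebraicIndependent k
    fun p : (a : Σ c, J c) × {I : Fin (n + 1) →₀ ℕ // I.degree = d a.1 a.2} =>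
      (P p.1.1 p.1.2).coeff p.2.1)
  {dd : C → ℕ} (hdd : ∀ c j, d c j + e c j = dd c) {F : C → MvPolynomial (Fin (n + 1)) K}
  (hF : ∀ c, F c = ∑ j, P c j * map (algebraMap (algebraicClosure k K) K) (G c j))

include hVh hV hG hP hgen hdd hF

theorem main_curve_nu {δ : C → ℕ} (hδ : ∀ c j, δ c ≤ d c j) {ν : ℕ} (L M : Type) [Field L]
    [Algebra K L] [IsFF K L] [Field M] [Algebra L M] [Algebra K M] [IsScalarTower K L M]
    [FiniteDimensional L M] (x : Fin (n + 1) → M) (hν : Module.finrank L M ≤ ν)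
    (hx : ∃ i j, x j ≠ 0 ∧ x i / x j ∉ Set.range (algebraMap K M)) (hxH : IsMap (eqH V F) x)
    (hxX : ∀ c, ¬ IsMap (eqX V F (G c)) x) :
    ((∑ c, (δ c + 1) : ℕ) - 2 * m - 2 * ν + 2 : ℤ) * pht K x ≤
      Module.finrank L M * canDeg K L := by
  have hne : ∀ c, ∃ j, aeval x (map (algebraMap (algebraicClosure k K) K) (G c j)) ≠ 0 := by
    intro c
    by_contra h
    push Not at h
    apply hxX c
    refine ⟨hxH.1, ?_⟩
    rintro f (hf | ⟨j, rfl⟩)
    · exact hxH.2 f hf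
    · exact h j
  refine Pool.Agent.Helper53K9.UV.curve_nu (C := C) V hVh hV (A := Σ c, J c)
    (dg := fun a => d a.1 a.2)
    (eg := fun a => e a.1 a.2) (fun a => G a.1 a.2) (fun a => hG a.1 a.2) Sigma.fst dd δ
    (fun a => hdd a.1 a.2) (fun a => hδ a.1 a.2) (fun a => P a.1 a.2) (fun a => hP a.1 a.2)
    hgen.algebraicClosure hν x
    hx (fun f hf => hxH.2 _ (Or.inl ⟨f, hf, rfl⟩)) (fun c => ?_) (fun c => ?_)
  · rw [sum_sigma_fv]
    have h1 := hxH.2 (F c) (Or.inr ⟨c, rfl⟩)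
    rw [hF, map_sum] at h1
    rw [← h1]
    refine Finset.sum_congr rfl fun j _ => ?_
    rw [map_mul, eval_map, eval_map]
    rfl
  · obtain ⟨j, hj⟩ := hne c
    exact ⟨⟨c, j⟩, rfl, hj⟩

end

end Pool.Agent.Helper21K9.UV
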