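import Pool.Agent.Helper21K9.UV.Loc

/-!
The differentials of the equations as functionals, and the choice of the rows.
-/

set_option autoImplicit false

open MvPolynomial FF Pool.Agent.W603.LV Pool.Agent.W603.PV Pool.Agent.TH145.GH
open Pool.Agent.TH145.GC (Ev dF_sub dF_self ord_prod exists_minor ge_det)
open Pool.Agent.TH145.GD (Ti tv St sM sM_mem mon_step sM_zero sM_top single_mem deg_St finite_St)
open Pool.Agent.TH145.GE

namespace Pool.Agent.Helper21K9.UV

variable {K : Type} [Field K] {n : ℕ} {A X : Type} {c0 : Fin (n + 1)} {dg eg : A → ℕ}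
  {D : A → (Fin (n + 1) →₀ ℕ) → Derivation ℤ K K} {E : X → Derivation ℤ K K}
  {P G : A → MvPolynomial (Fin (n + 1)) K}

theorem der_fv [Fintype A] {C : Type} (s : A → C) (x : Fin (n + 1) → K) (c : C)
    (Δ : Derivation ℤ K K) : open scoped Classical in
    (∑ a, if s a = c then eval x (G a) * Δ (eval x (P a)) + eval x (P a) * Δ (eval x (G a)) else 0) =
      Δ (fv s P G c x) := by
  classical
  unfold fv
  rw [map_sum]
  refine Finset.sum_congr rfl fun a _ => ?_
  by_cases h : s a = c
  · simp only [h, if_true]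
    rw [Δ.leibniz]
    simp only [smul_eq_mul]
    ring
  · simp only [h, if_false, map_zero]

open scoped Classical in
theorem exists_phi [Fintype A] {C : Type} [Finite C] (s : A → C) (dd : C → ℕ)
    (hP : ∀ a, (P a).IsHomogeneous (dg a)) (hG : ∀ a, (G a).IsHomogeneous (eg a))
    (hdd : ∀ a, dg a + eg a = dd (s a))
    (hD : ∀ (x : Fin (n + 1) → K) (a b : A) (I : Fin (n + 1) →₀ ℕ), I ∈ St c0 (dg a) →
      dF (P b) x (Ev D x a I) = D a I (eval x (P b)) - if a = b then mon x I else 0)
    (hDG : ∀ a I b u, D a I ((G b).coeff u) = 0)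
    (hEP : ∀ ξ b u, E ξ ((P b).coeff u) = 0) (hEG : ∀ ξ b u, E ξ ((G b).coeff u) = 0)
    {x : Fin (n + 1) → K} (hx : ∀ c, fv s P G c x = 0) :
    ∃ Φ : (Fin (n + 1) → K) →ₗ[K] (C → K), (∀ o, Φ (wv c0 dg D E x o) = 0) ∧
      ∀ (b : A) (I : Fin (n + 1) →₀ ℕ), I ∈ St c0 (dg b) → ∀ c, Φ (Ev D x b I) c =
        if s b = c then -(mon x I * eval x (G b)) else 0 := by
  obtain ⟨Φ, hΦ⟩ : ∃ Φ : (Fin (n + 1) → K) →ₗ[K] (C → K), ∀ z c, Φ z c =
      ∑ a, if s a = c then eval x (G a) * dF (P a) x z + eval x (P a) * dF (G a) x z else 0 := by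
    refine ⟨{ toFun := fun z c => ∑ a, if s a = c then eval x (G a) * dF (P a) x z +
                eval x (P a) * dF (G a) x z else 0
              map_add' := fun y z => ?_
              map_smul' := fun r z => ?_ }, fun _ _ => rfl⟩
    · funext c
      rw [Pi.add_apply, ← Finset.sum_add_distrib]
      refine Finset.sum_congr rfl fun a _ => ?_
      split_ifs
      · rw [dF_add, dF_add]
        ring
      · rw [add_zero]
    · funext c
      rw [RingHom.id_apply, Pi.smul_apply, smul_eq_mul, Finset.mul_sum]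
      refine Finset.sum_congr rfl fun a _ => ?_
      split_ifs
      · rw [dF_smul, dF_smul]
        ring
      · rw [mul_zero]
  have hEv : ∀ (b : A) (I : Fin (n + 1) →₀ ℕ), I ∈ St c0 (dg b) → ∀ c, Φ (Ev D x b I) c =
        if s b = c then -(mon x I * eval x (G b)) else 0 := by
    intro b I hI c
    have h1 : ∀ a, dF (G a) x (Ev D x b I) = D b I (eval x (G a)) := fun a =>
      dF_ev (E := D b I) (fun u => hDG b I a u) x
    rw [hΦ]
    have h2 := der_fv (G := G) (P := P) s x c (D b I)
    rw [hx c, map_zero] at h2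
    have h3 : ∀ a, (if s a = c then eval x (G a) * dF (P a) x (Ev D x b I) +
        eval x (P a) * dF (G a) x (Ev D x b I) else 0) =
        (if s a = c then eval x (G a) * D b I (eval x (P a)) + eval x (P a) * D b I (eval x (G a))
          else 0) + (if b = a then (if s a = c then -(mon x I * eval x (G a)) else 0) else 0) := by
      intro a
      by_cases hs : s a = c
      · simp only [hs, if_true]
        rw [hD x b a I hI, h1]
        split_ifs <;> ring
      · simp only [hs, if_false, ite_self, add_zero]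
    rw [Finset.sum_congr rfl fun a _ => h3 a, Finset.sum_add_distrib, h2, zero_add,
      Finset.sum_ite_eq, if_pos (Finset.mem_univ _)]
  refine ⟨Φ, ?_, hEv⟩
  rintro (_ | ξ | t)
  · funext c
    rw [hΦ, Pi.zero_apply]
    simp only [wv]
    have h1 : ∀ a, (if s a = c then eval x (G a) * dF (P a) x x +
        eval x (P a) * dF (G a) x x else 0) =
        (dd c : K) * (if s a = c then eval x (P a) * eval x (G a) else 0) := by
      intro a
      by_cases hs : s a = c
      · simp only [hs, if_true]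
        rw [dF_self (hP a), dF_self (hG a), ← hs, ← hdd a, Nat.cast_add]
        ring
      · simp only [hs, if_false, mul_zero]
    rw [Finset.sum_congr rfl fun a _ => h1 a, ← Finset.mul_sum]
    have h2 := hx c
    unfold fv at h2
    rw [h2, mul_zero]
  · funext c
    rw [hΦ, Pi.zero_apply]
    simp only [wv]
    have h2 := der_fv (G := G) (P := P) s x c (E ξ)
    rw [hx c, map_zero] at h2
    refine (Finset.sum_congr rfl fun a _ => ?_).trans h2
    rw [dF_ev (fun u => hEP ξ a u), dF_ev (fun u => hEG ξ a u)]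
  · simp only [wv]
    rw [tv]
    split_ifs with ht
    · rw [map_sub, map_smul, map_smul]
      funext c
      rw [Pi.sub_apply, Pi.smul_apply, Pi.smul_apply, hEv _ _ (sM_mem (by omega)),
        hEv _ _ (sM_mem (by omega)), Pi.zero_apply]
      have h1 := mon_step x c0 t.2.1 ht
      split_ifs
      · simp only [smul_eq_mul]
        linear_combination -(eval x (G t.1)) * h1
      · simp
    · exact map_zero _

/-- The rows, for the equations `F_c = 0`. -/
theorem exists_rowsX [Fintype A] {C : Type} [Fintype C] (s : A → C) (dd : C → ℕ)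
    (hP : ∀ a, (P a).IsHomogeneous (dg a)) (hG : ∀ a, (G a).IsHomogeneous (eg a))
    (hdd : ∀ a, dg a + eg a = dd (s a))
    (hD : open scoped Classical in ∀ (x : Fin (n + 1) → K) (a b : A) (I : Fin (n + 1) →₀ ℕ),
      I ∈ St c0 (dg a) →
      dF (P b) x (Ev D x a I) = D a I (eval x (P b)) - if a = b then mon x I else 0)
    (hDG : ∀ a I b u, D a I ((G b).coeff u) = 0)
    (hEP : ∀ ξ b u, E ξ ((P b).coeff u) = 0) (hEG : ∀ ξ b u, E ξ ((G b).coeff u) = 0)
    {x : Fin (n + 1) → K} (he : x c0 ≠ 0) (hx : ∀ c, fv s P G c x = 0)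
    (hn : ∀ c, ∃ a, s a = c ∧ eval x (G a) ≠ 0)
    (hs0 : LinearIndepOn K (vv c0 dg D E x fun a => Finsupp.single c0 (dg a)) (Vert X n A)) :
    ∃ b : Finset (Ix X n A ⊕ A), (∀ i ∈ Vert X n A, i ∈ b) ∧
      (∀ c, ∃ a, s a = c ∧ Sum.inr a ∈ b) ∧
      LinearIndependent K (fun i : b => vv c0 dg D E x (fun a => Finsupp.single c0 (dg a)) i) ∧
      (Submodule.span K (Set.range (wv c0 dg D E x)) ≤
        Submodule.span K (wv c0 dg D E x '' {o | Sum.inl o ∈ b})) ∧
      Module.finrank K (Full c0 dg D E x) = b.card := by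
  classical
  obtain ⟨Φ, hΦw, hΦE⟩ := exists_phi (c0 := c0) (D := D) (E := E) s dd hP hG hdd
    (fun x a b I hI => by convert hD x a b I hI) hDG hEP hEG hx
  choose ac hac hacG using hn
  obtain ⟨C', hC'⟩ : ∃ C' : Finset A, C' = Finset.univ.image ac := ⟨_, rfl⟩
  have hinj : ∀ a ∈ C', ∀ a' ∈ C', s a = s a' → a = a' := by
    intro a ha a' ha' h
    rw [hC', Finset.mem_image] at ha ha'
    obtain ⟨c, -, rfl⟩ := ha
    obtain ⟨c', -, rfl⟩ := ha'
    rw [hac, hac] at h
    rw [h]
  obtain ⟨Ψ, hΨ⟩ : ∃ Ψ : (Fin (n + 1) → K) →ₗ[K] (C' → K), ∀ z a, Ψ z a = Φ z (s a) :=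
    ⟨{ toFun := fun z a => Φ z (s a)
       map_add' := fun y z => by funext a; rw [map_add]; rfl
       map_smul' := fun r z => by funext a; rw [map_smul]; rfl }, fun _ _ => rfl⟩
  obtain ⟨b, h1, h2, h3, h4, h5⟩ := exists_rows' (c0 := c0) (dg := dg) (D := D) (E := E) he (C := C') Ψ
    (fun o => by
      funext a
      rw [hΨ, hΦw]
      rfl)
    (fun a => -(x c0 ^ dg a.1 * eval x (G a.1)))
    (fun a => by
      have ha : a.1 ∈ Finset.univ.image ac := by rw [← hC']; exact a.2
      obtain ⟨c, -, hc⟩ := Finset.mem_image.1 ha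
      rw [neg_ne_zero, ← hc]
      exact mul_ne_zero (pow_ne_zero _ he) (hacG c))
    (fun a a' => by
      rw [hΨ, hΦE _ _ (single_mem _), mon_single]
      by_cases h : a = a'
      · subst h
        simp
      · rw [if_neg h, if_neg]
        intro h'
        exact h (Subtype.ext (hinj _ a.2 _ a'.2 h'))) hs0
  refine ⟨b, h1, fun c => ⟨ac c, hac c, h2 _ ?_⟩, h3, h4, h5⟩
  rw [hC']
  exact Finset.mem_image_of_mem _ (Finset.mem_univ _)

open scoped Classical in
/-- The degrees of the rows. -/
theorem count_rows [Fintype A] [Fintype X] {b : Finset (Ix X n A ⊕ A)}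
    (hb : ∀ i ∈ Vert X n A, i ∈ b) :
    ∑ i ∈ b, rd i + (rowF b).card + 1 + Fintype.card X ≤ 2 * b.card := by
  obtain ⟨Q, hQ⟩ : ∃ Q : Finset A, Q = rowF b := ⟨_, rfl⟩
  obtain ⟨R, hR⟩ : ∃ R : Finset (Ix X n A ⊕ A), R = (Finset.univ : Finset X).image
    (fun ξ => Sum.inl (some (Sum.inl ξ))) := ⟨_, rfl⟩
  obtain ⟨b', hb'⟩ : ∃ b' : Finset (Ix X n A ⊕ A), b' = insert (Sum.inl none)
    (R ∪ Q.image Sum.inr) := ⟨_, rfl⟩
  have hmem : ∀ i ∈ b', i ∈ b ∧ rd i = 1 := by
    intro i hi
    rw [hb', Finset.mem_insert, Finset.mem_union] at hi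
    rcases hi with rfl | hi | hi
    · exact ⟨hb _ (Or.inl rfl), rfl⟩
    · rw [hR, Finset.mem_image] at hi
      obtain ⟨ξ, -, rfl⟩ := hi
      exact ⟨hb _ (Or.inr ⟨ξ, rfl⟩), rfl⟩
    · obtain ⟨a, ha, rfl⟩ := Finset.mem_image.1 hi
      rw [hQ, mem_rowF] at ha
      exact ⟨ha, rfl⟩
  have h1 : b' ⊆ b := fun i hi => (hmem i hi).1
  have hRc : R.card = Fintype.card X := by
    rw [hR, Finset.card_image_of_injective, Finset.card_univ]
    intro ξ η h
    have h2 := Sum.inl_injective h
    exact Sum.inl_injective (Option.some_injective _ h2)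
  have h2 : b'.card = Q.card + 1 + Fintype.card X := by
    rw [hb', Finset.card_insert_of_notMem, Finset.card_union_of_disjoint, hRc,
      Finset.card_image_of_injective _ Sum.inr_injective]
    · ring
    · rw [Finset.disjoint_left]
      intro i hi hi'
      rw [hR, Finset.mem_image] at hi
      obtain ⟨ξ, -, rfl⟩ := hi
      obtain ⟨a, -, ha⟩ := Finset.mem_image.1 hi'
      exact absurd ha (by simp)
    · rw [Finset.mem_union, not_or]
      constructor
      · intro hi
        rw [hR, Finset.mem_image] at hi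
        obtain ⟨ξ, -, h⟩ := hi
        exact absurd h (by simp)
      · intro hi
        obtain ⟨a, -, h⟩ := Finset.mem_image.1 hi
        exact absurd h (by simp)
  have h3 : ∑ i ∈ b', rd i = b'.card := by
    rw [Finset.card_eq_sum_ones]
    exact Finset.sum_congr rfl fun i hi => (hmem i hi).2
  have h4 : ∑ i ∈ b \ b', rd i ≤ 2 * (b \ b').card := by
    rw [mul_comm, ← smul_eq_mul, ← Finset.sum_const]
    refine Finset.sum_le_sum fun i _ => ?_
    rcases i with (_ | _ | _) | _
    · exact one_le_two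
    · exact one_le_two
    · exact le_rfl
    · exact one_le_two
  have h5 := Finset.sum_sdiff (f := fun i => rd i) h1
  have h6 := Finset.card_sdiff_add_card_eq_card h1
  rw [← hQ]
  omega

open scoped Classical in
/-- The sum of the degrees of the rows of forms. -/
theorem count_forms [Fintype A] {C : Type} [Fintype C] (s : A → C) (δ : C → ℕ)
    (hδ : ∀ a, δ (s a) ≤ dg a) {b : Finset (Ix X n A ⊕ A)}
    (hb : ∀ c, ∃ a, s a = c ∧ Sum.inr a ∈ b) :
    ∑ c, (δ c + 1) ≤ ∑ a ∈ rowF b, dg a + (rowF b).card := by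
  choose ac hac hacb using hb
  have hinj : Function.Injective ac := fun c c' h => by rw [← hac c, h, hac]
  rw [Finset.card_eq_sum_ones, ← Finset.sum_add_distrib]
  calc ∑ c, (δ c + 1) ≤ ∑ c, (dg (ac c) + 1) := Finset.sum_le_sum fun c _ => by
        have := hδ (ac c)
        rw [hac] at this
        omega
    _ = ∑ a ∈ Finset.univ.image ac, (dg a + 1) := by
        rw [Finset.sum_image fun c _ c' _ h => hinj h]
    _ ≤ _ := Finset.sum_le_sum_of_subset fun a ha => by
        obtain ⟨c, -, rfl⟩ := Finset.mem_image.1 ha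
        rw [mem_rowF]
        exact hacb c

end Pool.Agent.Helper21K9.UV
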