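import Pool.Agent.TH145.GE.Curve
import Pool.Agent.TH145.GC.Det

/-!
The choice of the rows with functionals.
-/

set_option autoImplicit false

open MvPolynomial Pool.Agent.TH145.GH
open Pool.Agent.TH145.GC (Ev dF_sub dF_self)
open Pool.Agent.TH145.GD (Ti tv St sM sM_mem mon_step sM_zero sM_top single_mem deg_St finite_St)
open Pool.Agent.TH145.GE

namespace Pool.Agent.Helper21K9.UV

variable {K : Type} [Field K] {n : ℕ} {A X : Type} {c0 : Fin (n + 1)} {dg : A → ℕ}
  {D : A → (Fin (n + 1) →₀ ℕ) → Derivation ℤ K K} {E : X → Derivation ℤ K K}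

open scoped Classical in
/-- The choice of the rows: functionals that kill the tangent vectors and are triangular on the rows
of the elements of `C`. -/
theorem exists_rows' {x : Fin (n + 1) → K} (he : x c0 ≠ 0) {C : Finset A}
    (Φ : (Fin (n + 1) → K) →ₗ[K] (C → K))
    (hΦw : ∀ o, Φ (wv c0 dg D E x o) = 0) (u : C → K) (hu : ∀ c, u c ≠ 0)
    (hΦE : ∀ a c : C, Φ (Ev D x a.1 (Finsupp.single c0 (dg a.1))) c = if a = c then u c else 0)
    (hs0 : LinearIndepOn K (vv c0 dg D E x fun a => Finsupp.single c0 (dg a)) (Vert X n A)) :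
    ∃ b : Finset (Ix X n A ⊕ A), (∀ i ∈ Vert X n A, i ∈ b) ∧ (∀ a ∈ C, Sum.inr a ∈ b) ∧
      LinearIndependent K (fun i : b => vv c0 dg D E x (fun a => Finsupp.single c0 (dg a)) i) ∧
      (Submodule.span K (Set.range (wv c0 dg D E x)) ≤
        Submodule.span K (wv c0 dg D E x '' {o | Sum.inl o ∈ b})) ∧
      Module.finrank K (Full c0 dg D E x) = b.card := by
  classical
  obtain ⟨v, hv⟩ : ∃ v, v = vv c0 dg D E x (fun a => Finsupp.single c0 (dg a)) := ⟨_, rfl⟩
  have hdeg : ∀ a, Finsupp.single c0 (dg a) ∈ St c0 (dg a) := fun a => single_mem _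
  rw [← hv] at hs0
  obtain ⟨b0, hb0, hs0b, hspan0, hb0i⟩ := exists_linearIndepOn_extension hs0
    (t := Set.range Sum.inl) (by
      rintro _ (rfl | ⟨ξ, rfl⟩)
      · exact ⟨none, rfl⟩
      · exact ⟨_, rfl⟩)
  have hΦw : ∀ z ∈ Submodule.span K (Set.range (wv c0 dg D E x)), Φ z = 0 := by
    intro z hz
    have h1 : Submodule.span K (Set.range (wv c0 dg D E x)) ≤ LinearMap.ker Φ := by
      rw [Submodule.span_le]
      rintro _ ⟨o, rfl⟩
      rw [SetLike.mem_coe, LinearMap.mem_ker]
      exact hΦw o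
    exact h1 hz
  have hΦE' : ∀ a : C, ∀ c : C, Φ (v (Sum.inr a.1)) c = if a = c then u c else 0 := by
    intro a c
    rw [hv]
    exact hΦE a c
  have hΦsum : ∀ r : C → K, Φ (∑ a : C, r a • v (Sum.inr a.1)) =
      fun c => r c * u c := by
    intro r
    rw [map_sum]
    funext c
    rw [Finset.sum_apply, Finset.sum_eq_single c]
    · rw [map_smul, Pi.smul_apply, hΦE' c c, if_pos rfl, smul_eq_mul]
    · intro a _ hac
      rw [map_smul, Pi.smul_apply, hΦE' a c, if_neg hac, smul_zero]
    · intro h; exact absurd (Finset.mem_univ c) h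
  have hCind : LinearIndepOn K v (Sum.inr '' (C : Set A)) := by
    have h1 : LinearIndependent K (fun a : C => v (Sum.inr a.1)) := by
      rw [Fintype.linearIndependent_iff]
      intro r hr a
      have h2 := hΦsum r
      rw [hr, map_zero] at h2
      have h3 : r a * u a = 0 := (congrFun h2 a).symm
      exact (mul_eq_zero.1 h3).resolve_right (hu a)
    have h2 : LinearIndepOn K (v ∘ Sum.inr) (C : Set A) := h1
    exact (LinearIndepOn.image_of_comp _ _ h2)
  have hdisj : Disjoint (Submodule.span K (v '' b0))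
      (Submodule.span K (v '' (Sum.inr '' (C : Set A)))) := by
    rw [Submodule.disjoint_def]
    intro z hz1 hz2
    have h1 : Φ z = 0 := by
      apply hΦw
      refine (Submodule.span_le.2 ?_) hz1
      rintro _ ⟨i, hi, rfl⟩
      obtain ⟨o, rfl⟩ := hb0 hi
      rw [hv]
      exact Submodule.subset_span ⟨o, rfl⟩
    have h2 : v '' (Sum.inr '' (C : Set A)) = Set.range fun a : C => v (Sum.inr a.1) := by
      ext w
      constructor
      · rintro ⟨_, ⟨a, ha, rfl⟩, rfl⟩
        exact ⟨⟨a, ha⟩, rfl⟩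
      · rintro ⟨a, rfl⟩
        exact ⟨_, ⟨a.1, a.2, rfl⟩, rfl⟩
    rw [h2, Submodule.mem_span_range_iff_exists_fun] at hz2
    obtain ⟨r, rfl⟩ := hz2
    rw [hΦsum] at h1
    refine Finset.sum_eq_zero fun a _ => ?_
    have h3 : r a * u a = 0 := congrFun h1 a
    rw [(mul_eq_zero.1 h3).resolve_right (hu a), zero_smul]
  obtain ⟨b1, -, hb1, hspan1, hb1i⟩ := exists_linearIndepOn_extension (hb0i.union hCind hdisj)
    (Set.subset_univ _)
  have hb1i' : LinearIndependent K (fun i : b1 => v i) := hb1i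
  have hfin : b1.Finite := by
    have := hb1i'.finite
    exact Set.toFinite b1
  obtain ⟨b, hb⟩ : ∃ b : Finset (Ix X n A ⊕ A), (b : Set _) = b1 :=
    ⟨hfin.toFinset, hfin.coe_toFinset⟩
  have hbm : ∀ i, i ∈ b ↔ i ∈ b1 := fun i => by rw [← hb, Finset.mem_coe]
  have hbi : LinearIndependent K (fun i : b => v i) := by
    have h1 : LinearIndepOn K v (b : Set _) := by rw [hb]; exact hb1i
    exact h1
  refine ⟨b, ?_, fun a ha => ?_, ?_, ?_, ?_⟩
  · intro i hi
    rw [hbm]; exact hb1 (Or.inl (hs0b hi))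
  · rw [hbm]; exact hb1 (Or.inr ⟨a, ha, rfl⟩)
  · rw [← hv]; exact hbi
  · rw [Submodule.span_le]
    rintro _ ⟨o, rfl⟩
    have h1 := hspan0 ⟨Sum.inl o, ⟨o, rfl⟩, rfl⟩
    have h2 : v (Sum.inl o) = wv c0 dg D E x o := by rw [hv]; rfl
    rw [h2] at h1
    refine Submodule.span_mono ?_ h1
    rintro _ ⟨i, hi, rfl⟩
    obtain ⟨o', rfl⟩ := hb0 hi
    refine ⟨o', ?_, by rw [hv]; rfl⟩
    rw [Set.mem_ofPred_eq, hbm]
    exact hb1 (Or.inl hi)
  · have h1 : Full c0 dg D E x = Submodule.span K (Set.range fun i : b => v i) := by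
      apply le_antisymm
      · have h2 : ∀ i, v i ∈ Submodule.span K (Set.range fun i : b => v i) := by
          intro i
          have h3 := hspan1 ⟨i, Set.mem_univ _, rfl⟩
          rw [← hb, Set.image_eq_range] at h3
          exact h3
        have h3 : ∀ o, wv c0 dg D E x o ∈ Submodule.span K (Set.range fun i : b => v i) := by
          intro o
          have := h2 (Sum.inl o)
          rwa [hv] at this ⊢
        rw [Full, Submodule.span_le]
        rintro _ (⟨o, rfl⟩ | ⟨a, I, hI, rfl⟩)
        · exact h3 o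
        · have h4 := Ev_mod dg D E x he a hI
          have h5 : Submodule.span K (Set.range (wv c0 dg D E x)) ≤
              Submodule.span K (Set.range fun i : b => v i) := by
            rw [Submodule.span_le]
            rintro _ ⟨o, rfl⟩
            exact h3 o
          have h6 : Ev D x a (Finsupp.single c0 (dg a)) ∈
              Submodule.span K (Set.range fun i : b => v i) := by
            have := h2 (Sum.inr a)
            rwa [hv] at this ⊢
          have h7 := add_mem (h5 h4) (Submodule.smul_mem _ (mon x I / x c0 ^ dg a) h6)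
          rwa [sub_add_cancel] at h7
      · rw [Submodule.span_le]
        rintro _ ⟨i, rfl⟩
        rw [hv]
        exact vv_mem_full x hdeg i.1
    rw [h1, finrank_span_eq_card hbi, Fintype.card_coe]

end Pool.Agent.Helper21K9.UV
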