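import Pool.Agent.TH145.GH.Span

/-!
[SM], first part: the derivative of the differential of `∑ P a * G a` (helper15).
-/

set_option autoImplicit false

open MvPolynomial Pool.Agent.TH145.GH

namespace Pool.Agent.Helper21K9.UV.SmL

variable {K : Type} [Field K] {n : ℕ}

/-- the part of the derivative of `p (x)` that comes from the coefficients of `p` -/
noncomputable def Phi (D : Derivation ℤ K K) (x : Fin (n + 1) → K) (p : MvPolynomial (Fin (n + 1)) K) : K :=
  D (eval x p) - ∑ l, eval x (pderiv l p) * D (x l)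

variable (D : Derivation ℤ K K) (x : Fin (n + 1) → K)

theorem Phi_eq (p : MvPolynomial (Fin (n + 1)) K) : Phi D x p = ∑ u ∈ p.support, D (p.coeff u) * mon x u := by
  unfold Phi
  rw [chainM]
  ring

theorem Phi_add (p q : MvPolynomial (Fin (n + 1)) K) : Phi D x (p + q) = Phi D x p + Phi D x q := by
  unfold Phi
  simp only [map_add, add_mul, Finset.sum_add_distrib]
  ring

theorem Phi_zero : Phi D x (0 : MvPolynomial (Fin (n + 1)) K) = 0 := by
  unfold Phi
  simp

theorem Phi_sum {ι : Type} (s : Finset ι) (p : ι → MvPolynomial (Fin (n + 1)) K) :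
    Phi D x (∑ i ∈ s, p i) = ∑ i ∈ s, Phi D x (p i) := by
  classical
  induction s using Finset.induction_on with
  | empty => rw [Finset.sum_empty, Finset.sum_empty, Phi_zero]
  | insert a s ha ih => rw [Finset.sum_insert ha, Finset.sum_insert ha, Phi_add, ih]

theorem Phi_mul (p q : MvPolynomial (Fin (n + 1)) K) :
    Phi D x (p * q) = eval x p * Phi D x q + eval x q * Phi D x p := by
  unfold Phi
  rw [map_mul, D.leibniz]
  have h1 : ∑ l, eval x (pderiv l (p * q)) * D (x l) =
      eval x p * (∑ l, eval x (pderiv l q) * D (x l)) +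
        eval x q * ∑ l, eval x (pderiv l p) * D (x l) := by
    rw [Finset.mul_sum, Finset.mul_sum, ← Finset.sum_add_distrib]
    refine Finset.sum_congr rfl fun l _ => ?_
    rw [pderiv_mul, map_add, map_mul, map_mul]
    ring
  rw [h1, smul_eq_mul, smul_eq_mul]
  ring

theorem Phi_monomial (u : Fin (n + 1) →₀ ℕ) (r : K) : Phi D x (monomial u r) = D r * mon x u := by
  classical
  rw [Phi_eq]
  by_cases hr : r = 0
  · rw [hr]; simp
  · rw [support_monomial, if_neg hr, Finset.sum_singleton, coeff_monomial, if_pos rfl]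

theorem Phi_pderiv_monomial (j : Fin (n + 1)) (u : Fin (n + 1) →₀ ℕ) (r : K) :
    Phi D x (pderiv j (monomial u r)) = D r * eval x (pderiv j (monomial u 1)) := by
  rw [pderiv_monomial, Phi_monomial, pderiv_monomial, eval_monomial', D.leibniz]
  have h : D ((u j : ℕ) : K) = 0 := by simp
  rw [h]
  simp only [smul_eq_mul]
  ring

/-- the same for a whole polynomial, `T = id` or `T = pderiv j` -/
theorem Phi_T (T : MvPolynomial (Fin (n + 1)) K →+ MvPolynomial (Fin (n + 1)) K)
    (hT : ∀ u r, Phi D x (T (monomial u r)) = D r * eval x (T (monomial u 1)))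
    (p : MvPolynomial (Fin (n + 1)) K) :
    Phi D x (T p) = ∑ u ∈ p.support, D (p.coeff u) * eval x (T (monomial u 1)) := by
  conv_lhs => rw [p.as_sum, map_sum]
  rw [Phi_sum]
  exact Finset.sum_congr rfl fun u _ => hT _ _

/-- constants -/
theorem Phi_T_const (T : MvPolynomial (Fin (n + 1)) K →+ MvPolynomial (Fin (n + 1)) K)
    (hT : ∀ u r, Phi D x (T (monomial u r)) = D r * eval x (T (monomial u 1)))
    (p : MvPolynomial (Fin (n + 1)) K) (hp : ∀ u, D (p.coeff u) = 0) : Phi D x (T p) = 0 := by
  rw [Phi_T D x T hT]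
  exact Finset.sum_eq_zero fun u _ => by rw [hp, zero_mul]

/-- the dual coefficient -/
theorem Phi_T_dual (T : MvPolynomial (Fin (n + 1)) K →+ MvPolynomial (Fin (n + 1)) K)
    (hT : ∀ u r, Phi D x (T (monomial u r)) = D r * eval x (T (monomial u 1)))
    (p : MvPolynomial (Fin (n + 1)) K) (I : Fin (n + 1) →₀ ℕ) (hp : ∀ u, u ∈ p.support → u ≠ I → D (p.coeff u) = 0)
    (hI : D (p.coeff I) = 1) : Phi D x (T p) = eval x (T (monomial I 1)) := by
  classical
  rw [Phi_T D x T hT, Finset.sum_eq_single I]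
  · rw [hI, one_mul]
  · intro u hu hne
    rw [hp u hu hne, zero_mul]
  · intro h
    rw [notMem_support_iff.1 h, map_zero] at hI
    exact absurd hI zero_ne_one

section

variable {A : Type} [Fintype A] (P Gm : A → MvPolynomial (Fin (n + 1)) K)

/-- `-H (D ∘ x)` -/
theorem key (a : A) (I : Fin (n + 1) →₀ ℕ)
    (hP0 : ∀ b, b ≠ a → ∀ u ∈ (P b).support, D ((P b).coeff u) = 0)
    (hP1 : ∀ u ∈ (P a).support, u ≠ I → D ((P a).coeff u) = 0) (hP2 : D ((P a).coeff I) = 1)
    (hG : ∀ b u, D ((Gm b).coeff u) = 0) (j : Fin (n + 1))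
    (hF : eval x (pderiv j (∑ b, P b * Gm b)) = 0) :
    ∑ l, eval x (pderiv l (pderiv j (∑ b, P b * Gm b))) * D (x l) =
      -(eval x (pderiv j (monomial I 1)) * eval x (Gm a) + mon x I * eval x (pderiv j (Gm a))) := by
  classical
  have h0 : Phi D x (pderiv j (∑ b, P b * Gm b)) =
      - ∑ l, eval x (pderiv l (pderiv j (∑ b, P b * Gm b))) * D (x l) := by
    unfold Phi
    rw [hF, map_zero, zero_sub]
  obtain ⟨T0, hT0⟩ : ∃ T : MvPolynomial (Fin (n + 1)) K →+ MvPolynomial (Fin (n + 1)) K, ∀ p, T p = p :=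
    ⟨AddMonoidHom.id _, fun _ => rfl⟩
  obtain ⟨T1, hT1⟩ : ∃ T : MvPolynomial (Fin (n + 1)) K →+ MvPolynomial (Fin (n + 1)) K, ∀ p, T p = pderiv j p :=
    ⟨(pderiv j).toLinearMap.toAddMonoidHom, fun _ => rfl⟩
  have e0 : ∀ u r, Phi D x (T0 (monomial u r)) = D r * eval x (T0 (monomial u 1)) := fun u r => by
    rw [hT0, hT0, Phi_monomial, eval_monomial', one_mul]
  have e1 : ∀ u r, Phi D x (T1 (monomial u r)) = D r * eval x (T1 (monomial u 1)) := fun u r => by
    rw [hT1, hT1, Phi_pderiv_monomial]
  have g0 : ∀ b, Phi D x (Gm b) = 0 := fun b => by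
    have := Phi_T_const D x T0 e0 (Gm b) (hG b)
    rwa [hT0] at this
  have g1 : ∀ b, Phi D x (pderiv j (Gm b)) = 0 := fun b => by
    have := Phi_T_const D x T1 e1 (Gm b) (hG b)
    rwa [hT1] at this
  have p0 : Phi D x (P a) = mon x I := by
    have := Phi_T_dual D x T0 e0 (P a) I hP1 hP2
    rwa [hT0, hT0, eval_monomial', one_mul] at this
  have p1 : Phi D x (pderiv j (P a)) = eval x (pderiv j (monomial I 1)) := by
    have := Phi_T_dual D x T1 e1 (P a) I hP1 hP2
    rwa [hT1, hT1] at this
  have q0 : ∀ b, b ≠ a → Phi D x (P b) = 0 := fun b hb => by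
    have := Phi_T D x T0 e0 (P b)
    rw [hT0] at this
    rw [this]
    exact Finset.sum_eq_zero fun u hu => by rw [hP0 b hb u hu, zero_mul]
  have q1 : ∀ b, b ≠ a → Phi D x (pderiv j (P b)) = 0 := fun b hb => by
    have := Phi_T D x T1 e1 (P b)
    rw [hT1] at this
    rw [this]
    exact Finset.sum_eq_zero fun u hu => by rw [hP0 b hb u hu, zero_mul]
  have h1 : Phi D x (pderiv j (∑ b, P b * Gm b)) =
      eval x (pderiv j (monomial I 1)) * eval x (Gm a) + mon x I * eval x (pderiv j (Gm a)) := by
    rw [map_sum, Phi_sum, Finset.sum_eq_single a]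
    · rw [pderiv_mul, Phi_add, Phi_mul, Phi_mul, g0, g1, p0, p1]
      ring
    · intro b _ hb
      rw [pderiv_mul, Phi_add, Phi_mul, Phi_mul, g0, g1, q0 b hb, q1 b hb]
      ring
    · intro h; exact absurd (Finset.mem_univ a) h
  rw [← h1, h0, neg_neg]

end

/-- the functional that kills all the derivatives is zero -/
theorem lam_zero [CharZero K] {G : MvPolynomial (Fin (n + 1)) K} {e d : ℕ} (hG : G.IsHomogeneous e) (hd : 1 ≤ d)
    {l0 : Fin (n + 1)} (hx0 : x l0 = 1) (hGx : eval x G ≠ 0) (lam : Fin (n + 1) → K)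
    (h : ∀ I : Fin (n + 1) →₀ ℕ, I.degree = d → ∑ i, lam i * (eval x (pderiv i (monomial I 1)) * eval x G +
      mon x I * eval x (pderiv i G)) = 0) : lam = 0 := by
  classical
  obtain ⟨S, hS⟩ : ∃ S, S = ∑ i, lam i * eval x (pderiv i G) := ⟨_, rfl⟩
  have h1 : ∀ j, eval x G * (((d - 1 : ℕ) : K) * lam l0 * x j + lam j) + x j * S = 0 := by
    intro j
    have h2 := h (Finsupp.single l0 (d - 1) + Finsupp.single j 1) (by
      rw [map_add, Finsupp.degree_single, Finsupp.degree_single]; omega)
    have h3 : (monomial (Finsupp.single l0 (d - 1) + Finsupp.single j 1) (1 : K)) =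
        (X l0 ^ (d - 1) * X j : MvPolynomial (Fin (n + 1)) K) := by
      rw [X_pow_eq_monomial, ← pow_one (X j), X_pow_eq_monomial, monomial_mul, one_mul]
    rw [h3, mon_add, mon_single, mon_single, hx0, one_pow, one_mul, pow_one] at h2
    have h4 : ∀ i, eval x (pderiv i (X l0 ^ (d - 1) * X j : MvPolynomial (Fin (n + 1)) K)) =
        (if i = l0 then ((d - 1 : ℕ) : K) * x j else 0) + (if i = j then 1 else 0) := by
      intro i
      rw [pderiv_mul, pderiv_pow, pderiv_X, pderiv_X, map_add, map_mul, map_mul, map_mul, map_mul, map_natCast,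
        map_pow, map_pow, eval_X, eval_X, hx0, one_pow, one_pow]
      simp only [Pi.single_apply]
      by_cases h5 : l0 = i
      · subst h5
        by_cases h6 : j = l0
        · subst h6; simp
        · simp [h6, Ne.symm h6]
      · by_cases h6 : j = i
        · subst h6; simp [h5, Ne.symm h5]
        · simp [h5, h6, Ne.symm h5, Ne.symm h6]
    simp only [h4] at h2
    have h5 : ∑ i, lam i * (((if i = l0 then ((d - 1 : ℕ) : K) * x j else 0) + (if i = j then 1 else 0)) * eval x G +
        x j * eval x (pderiv i G)) = eval x G * (((d - 1 : ℕ) : K) * lam l0 * x j + lam j) + x j * S := by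
      rw [hS]
      have : ∀ i, lam i * (((if i = l0 then ((d - 1 : ℕ) : K) * x j else 0) + (if i = j then 1 else 0)) * eval x G +
          x j * eval x (pderiv i G)) = (if i = l0 then lam i * (((d - 1 : ℕ) : K) * x j) * eval x G else 0) +
            (if i = j then lam i * eval x G else 0) + x j * (lam i * eval x (pderiv i G)) := by
        intro i
        split_ifs <;> ring
      rw [Finset.sum_congr rfl fun i _ => this i, Finset.sum_add_distrib, Finset.sum_add_distrib,
        Finset.sum_ite_eq' Finset.univ l0, Finset.sum_ite_eq' Finset.univ j, if_pos (Finset.mem_univ _),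
        if_pos (Finset.mem_univ _), ← Finset.mul_sum]
      ring
    rw [h5] at h2
    exact h2
  have hd1 : ((d - 1 : ℕ) : K) = d - 1 := by
    rw [Nat.cast_sub hd, Nat.cast_one]
  have h2 := h1 l0
  rw [hx0, hd1] at h2
  have h3 : S = -(eval x G * d * lam l0) := by linear_combination h2
  have h4 : ∀ j, lam j = x j * lam l0 := by
    intro j
    have h5 := h1 j
    rw [hd1, h3] at h5
    have h6 : eval x G * (lam j - x j * lam l0) = 0 := by linear_combination h5
    rcases mul_eq_zero.1 h6 with h7 | h7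
    · exact absurd h7 hGx
    · linear_combination h7
  have h5 : S = lam l0 * (e * eval x G) := by
    have h6 := congrArg (eval x) hG.sum_X_mul_pderiv
    rw [map_sum, nsmul_eq_mul, map_mul, map_natCast] at h6
    rw [← h6, hS, Finset.mul_sum]
    refine Finset.sum_congr rfl fun i _ => ?_
    rw [h4 i, map_mul, eval_X]
    ring
  have h6 : lam l0 * (((e + d : ℕ) : K) * eval x G) = 0 := by
    push_cast
    linear_combination h5.symm.trans h3
  have h7 : lam l0 = 0 := by
    rcases mul_eq_zero.1 h6 with h8 | h8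
    · exact h8
    · rcases mul_eq_zero.1 h8 with h9 | h9
      · have : e + d = 0 := by exact_mod_cast h9
        omega
      · exact absurd h9 hGx
  funext j
  rw [h4, h7, mul_zero]
  rfl

end Pool.Agent.Helper21K9.UV.SmL
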