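import Pool.Agent.Helper21K9.UV.Stm
import Pool.Agent.Helper21K9.UV.SmA
import Pool.Agent.TH145.GE.Duals

/-!
[SM] smoothness of the generic hypersurface through the zero set of the `G a` (helper15).
-/

set_option autoImplicit false

open MvPolynomial Pool.Agent.TH145.GH
open Pool.Agent.TH145.GC (Cf Tan)
open Pool.Agent.TH145.MG (DimLE)

namespace Pool.Agent.Helper21K9.UV

namespace SmL

/-- dual derivations -/
theorem duals {k1 K : Type} [Field k1] [Field K] [Algebra k1 K] [CharZero k1] {β : Type} (c : β → K)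
    (hc : AlgebraicIndependent k1 c) :
    ∃ D : β → Derivation k1 K K, ∀ b, D b (c b) = 1 ∧ ∀ b', b' ≠ b → D b (c b') = 0 := by
  classical
  obtain ⟨s, hs, hy⟩ := exists_isTranscendenceBasis_superset (R := k1) (s := Set.range c) hc.coe_range
  have hE : ∀ b : β, ∃ E : Derivation k1 K K, ∀ i : s, E (i : K) = if (i : K) = c b then 1 else 0 := fun b =>
    Pool.Agent.W602.GT.exists_der (fun i : s => (i : K)) hy _
  choose E hE using hE
  refine ⟨E, fun b => ⟨?_, fun b' hb' => ?_⟩⟩
  · rw [hE b ⟨c b, hs ⟨b, rfl⟩⟩, if_pos rfl]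
  · rw [hE b ⟨c b', hs ⟨b', rfl⟩⟩, if_neg fun h => hb' (hc.injective h)]

theorem fin_map {K V W : Type} [Field K] [AddCommGroup V] [Module K V] [AddCommGroup W] [Module K W]
    [FiniteDimensional K V] (f : V →ₗ[K] W) (T : Submodule K V) {x : V} (hx : x ∈ T) (hx0 : x ≠ 0) (hfx : f x = 0) :
    Module.finrank K (T.map f) + 1 ≤ Module.finrank K T := by
  have h1 := LinearMap.finrank_range_add_finrank_ker (f.domRestrict T)
  rw [LinearMap.range_domRestrict] at h1
  have h2 : LinearMap.ker (f.domRestrict T) ≠ ⊥ := by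
    rw [Submodule.ne_bot_iff]
    exact ⟨⟨x, hx⟩, hfx, fun h => hx0 (congrArg Subtype.val h)⟩
  have h3 : 1 ≤ Module.finrank K (LinearMap.ker (f.domRestrict T)) := Submodule.one_le_finrank_iff.2 h2
  omega

theorem core {k1 K : Type} [Field k1] [Field K] [Algebra k1 K] [CharZero k1] [CharZero K] {n r : ℕ}
    {A : Type} [Fintype A] {dg eg : A → ℕ} (d : ℕ)
    (G : A → MvPolynomial (Fin (n + 1)) k1)
    (hG : ∀ a, (G a).IsHomogeneous (eg a)) (hd : ∀ a, dg a + eg a = d) (hdg : ∀ a, 1 ≤ dg a)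
    (P : A → MvPolynomial (Fin (n + 1)) K) (hP : ∀ a, (P a).IsHomogeneous (dg a))
    (hind : AlgebraicIndependent k1 fun p : Cf n dg => (P p.1).coeff p.2.1)
    (hdim : DimLE k1 (Set.range G) r)
    (x : Fin (n + 1) → K) (l0 : Fin (n + 1)) (hx0 : x l0 = 1)
    (hrk : (∀ a, aeval x (G a) = 0) →
      r + 1 ≤ (Matrix.of fun (a : A) (j : Fin (n + 1)) => aeval x (pderiv j (G a))).rank)
    (h0 : ∀ j, eval x (pderiv j (∑ a, P a * map (algebraMap k1 K) (G a))) = 0) : False := by
  classical
  obtain ⟨Gm, hGm⟩ : ∃ Gm : A → MvPolynomial (Fin (n + 1)) K, ∀ a, Gm a = map (algebraMap k1 K) (G a) := ⟨_, fun _ => rfl⟩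
  simp only [← hGm] at h0
  obtain ⟨D, hD⟩ := duals _ hind
  have hxne : x ≠ 0 := fun h => by
    rw [h] at hx0
    exact zero_ne_one hx0
  obtain ⟨F, hF⟩ : ∃ F, F = ∑ a, P a * Gm a := ⟨_, rfl⟩
  have hFh : F.IsHomogeneous d := by
    rw [hF]
    refine IsHomogeneous.sum _ _ _ fun a _ => ?_
    rw [← hd a, hGm]
    exact (hP a).mul ((hG a).map _)
  obtain ⟨Hm, hHm⟩ : ∃ Hm : Matrix (Fin (n + 1)) (Fin (n + 1)) K, ∀ j l, Hm j l = eval x (pderiv l (pderiv j F)) :=
    ⟨Matrix.of fun j l => eval x (pderiv l (pderiv j F)), fun _ _ => rfl⟩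
  obtain ⟨w, hw⟩ : ∃ w : A → (Fin (n + 1) →₀ ℕ) → Fin (n + 1) → K, ∀ a I j, w a I j =
      eval x (pderiv j (monomial I 1)) * eval x (Gm a) + mon x I * eval x (pderiv j (Gm a)) := ⟨_, fun _ _ _ => rfl⟩
  -- the point is in the kernel
  have hker : Hm.mulVecLin x = 0 := by
    funext j
    rw [Matrix.mulVecLin_apply, Matrix.mulVec, dotProduct, Pi.zero_apply]
    have h1 := congrArg (eval x) (hFh.pderiv (i := j)).sum_X_mul_pderiv
    rw [map_sum, nsmul_eq_mul, map_mul, hF, h0 j, mul_zero, ← hF] at h1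
    rw [← h1]
    refine Finset.sum_congr rfl fun l _ => ?_
    rw [hHm, map_mul, eval_X, mul_comm]
  -- tangent vectors
  have hxT : x ∈ Tan k1 x := ⟨1, 0, fun _ => rfl, fun l => by simp⟩
  obtain ⟨W, hW⟩ : ∃ W, W = (Tan k1 x).map Hm.mulVecLin := ⟨_, rfl⟩
  have hWr : Module.finrank K W + 1 ≤ Module.finrank K (Tan k1 x) := by
    rw [hW]
    exact fin_map _ _ hxT hxne hker
  have hwW : ∀ a I, I.degree = dg a → w a I ∈ W := by
    intro a I hI
    obtain ⟨E, hE⟩ : ∃ E : Derivation ℤ K K, E = (D ⟨a, ⟨I, hI⟩⟩).restrictScalars ℤ := ⟨_, rfl⟩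
    have hEk : ∀ r : k1, E (algebraMap k1 K r) = 0 := fun r => by
      rw [hE]
      exact (D ⟨a, ⟨I, hI⟩⟩).map_algebraMap r
    have hE0 : ∀ (b : A) (u : Fin (n + 1) →₀ ℕ), u ∈ (P b).support → (b ≠ a ∨ u ≠ I) → E ((P b).coeff u) = 0 := by
      intro b u hu hne
      rw [hE]
      refine (hD ⟨a, ⟨I, hI⟩⟩).2 ⟨b, ⟨u, deg_of_mem (hP b) hu⟩⟩ ?_
      intro h
      have h1 : b = a := congrArg Sigma.fst h
      subst h1
      have h2 : u = I := by
        have := eq_of_heq (Sigma.mk.inj h).2
        exact congrArg Subtype.val this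
      rcases hne with h3 | h3
      · exact h3 rfl
      · exact h3 h2
    rw [hW]
    refine ⟨fun l => - E (x l), ?_, ?_⟩
    · refine ⟨0, -E, fun r => by rw [Derivation.neg_apply, hEk, neg_zero], fun l => ?_⟩
      rw [Derivation.neg_apply, zero_mul, zero_add]
    · funext j
      rw [Matrix.mulVecLin_apply, Matrix.mulVec, dotProduct, hw]
      have h1 := key E x P Gm a I (fun b hb u hu => hE0 b u hu (Or.inl hb)) (fun u hu hne => hE0 a u hu (Or.inr hne))
        (by rw [hE]; exact (hD ⟨a, ⟨I, hI⟩⟩).1) (fun b u => by rw [hGm, coeff_map]; exact hEk _) j (h0 j)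
      rw [← hF] at h1
      have h2 : ∑ l, Hm j l * -E (x l) = -∑ l, eval x (pderiv l (pderiv j F)) * E (x l) := by
        rw [← Finset.sum_neg_distrib]
        refine Finset.sum_congr rfl fun l _ => ?_
        rw [hHm]
        ring
      rw [h2, h1, neg_neg]
  have hae : ∀ a, aeval x (G a) = eval x (Gm a) := fun a => by
    rw [hGm, eval_map]
    rfl
  by_cases hall : ∀ a, eval x (Gm a) = 0
  · have h1 : Module.finrank K (Tan k1 x) ≤ r + 1 := by
      refine Pool.Agent.TH145.GE.tan_rank hx0 (hdim K x hxne ?_)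
      rintro _ ⟨a, rfl⟩
      rw [hae, hall]
    have h2 := hrk fun a => by rw [hae, hall]
    rw [Matrix.rank_eq_finrank_span_row] at h2
    have h3 : Submodule.span K (Set.range (Matrix.of fun (a : A) (j : Fin (n + 1)) => aeval x (pderiv j (G a))).row) ≤ W := by
      rw [Submodule.span_le]
      rintro _ ⟨a, rfl⟩
      have h4 := hwW a (Finsupp.single l0 (dg a)) (Finsupp.degree_single _ _)
      have h5 : w a (Finsupp.single l0 (dg a)) =
          (Matrix.of fun (a : A) (j : Fin (n + 1)) => aeval x (pderiv j (G a))).row a := by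
        funext j
        rw [hw, hall, mul_zero, zero_add, mon_single, hx0, one_pow, one_mul]
        change eval x (pderiv j (Gm a)) = aeval x (pderiv j (G a))
        rw [hGm, pderiv_map, eval_map]
        rfl
      rw [← h5]
      exact h4
    have h4 := Submodule.finrank_mono h3
    omega
  · push Not at hall
    obtain ⟨a, ha⟩ := hall
    have h1 : Module.finrank K (Tan k1 x) ≤ n + 1 := by
      refine (Submodule.finrank_le _).trans ?_
      rw [Module.finrank_fin_fun]
    have hlt : W < ⊤ := by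
      rw [lt_top_iff_ne_top]
      intro h
      rw [h, finrank_top, Module.finrank_fin_fun] at hWr
      omega
    obtain ⟨f, hf0, hf⟩ := Submodule.exists_le_ker_of_lt_top W hlt
    have hfs : ∀ v, f v = ∑ i, f (Pi.single i 1) * v i := by
      intro v
      conv_lhs => rw [← Finset.univ_sum_single v]
      rw [map_sum]
      refine Finset.sum_congr rfl fun i _ => ?_
      have : Pi.single i (v i) = (v i) • (Pi.single i (1 : K) : Fin (n + 1) → K) := by
        rw [← Pi.single_smul, smul_eq_mul, mul_one]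
      rw [this, map_smul, smul_eq_mul, mul_comm]
    have hlam := lam_zero x (G := Gm a) (e := eg a) (d := dg a) (by rw [hGm]; exact (hG a).map _) (hdg a) hx0 ha
      (fun i => f (Pi.single i 1)) (fun I hI => by
        have h2 := hf (hwW a I hI)
        rw [LinearMap.mem_ker, hfs] at h2
        rw [← h2]
        refine Finset.sum_congr rfl fun i _ => ?_
        rw [hw])
    apply hf0
    ext i
    have := congrFun hlam i
    simpa using this

end SmL

open SmL in
theorem sm : S_SM := by
  intro k K _ _ _ _ _ n r A _ dg eg d G hG hd hdg P hP hind hdim hrk x hx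
  by_contra hcon
  push Not at hcon
  have hind1 : AlgebraicIndependent (algebraicClosure k K) fun p : Cf n dg => (P p.1).coeff p.2.1 :=
    hind.algebraicClosure
  have hk1 : CharZero (algebraicClosure k K) := by
    constructor
    intro a b hab
    have h1 := congrArg (algebraMap (algebraicClosure k K) K) hab
    rw [map_natCast, map_natCast] at h1
    exact Nat.cast_injective h1
  obtain ⟨l0, hl0⟩ := Function.ne_iff.1 hx
  have hl0 : x l0 ≠ 0 := hl0
  have hx' : (x l0)⁻¹ • x ≠ 0 := smul_ne_zero (inv_ne_zero hl0) hx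
  have hFh : (∑ a, P a * map (algebraMap (algebraicClosure k K) K) (G a)).IsHomogeneous d := by
    refine IsHomogeneous.sum _ _ _ fun a _ => ?_
    rw [← hd a]
    exact (hP a).mul ((hG a).map _)
  refine core d G hG hd hdg P hP hind1 hdim ((x l0)⁻¹ • x) l0 (by
    rw [Pi.smul_apply, smul_eq_mul, inv_mul_cancel₀ hl0]) (hrk _ hx') fun j => ?_
  rw [eval_smul_hom (hFh.pderiv (i := j)), hcon j, mul_zero]

end Pool.Agent.Helper21K9.UV
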